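import Pool.Agent.Lib.MP_098da0_al.Arith

namespace Pool.Agent.Lib.MP_098da0_al

open Finset Filter Asymptotics

structure Model where
  C : ℕ → Type
  grp : ∀ n, Group (C n)
  D : ∀ {n : ℕ}, C n → C n → ℝ
  D_nonneg : ∀ {n : ℕ} (x y : C n), 0 ≤ D x y
  D_le : ∀ {n : ℕ} (x y : C n), D x y ≤ 4 * n
  D_self : ∀ {n : ℕ} (x : C n), D x x = 0
  D_symm : ∀ {n : ℕ} (x y : C n), D x y = D y x
  D_mul_left : ∀ {n : ℕ} (z x y : C n), D (z * x) (z * y) = D x y
  D_mul_right : ∀ {n : ℕ} (z x y : C n), D (x * z) (y * z) = D x y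
  D_tri : ∀ {n : ℕ} (x y z : C n), D x z ≤ 2 * D x y + 2 * D y z
  bs : ∀ {a b n : ℕ}, a + b = n → (C a × C b →* C n)
  D_bs : ∀ {a b n : ℕ} (h : a + b = n) (x x' : C a) (y y' : C b),
    D (bs h (x, y)) (bs h (x', y')) = D x x' + D y y'
  bs_assoc : ∀ {a b c m m' n : ℕ} (h1 : a + b = m) (h2 : m + c = n) (h3 : b + c = m')
    (h4 : a + m' = n) (x : C a) (y : C b) (z : C c),
    bs h2 (bs h1 (x, y), z) = bs h4 (x, bs h3 (y, z))
  cut : ∀ {a r n : ℕ} (h : a + r = n) (σ : C n), ∃ τ : C a, D σ (bs h (τ, 1)) ≤ 16 * r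

attribute [instance] Model.grp

abbrev Small (N : ℕ → ℕ) (f : ℕ → ℝ) : Prop := f =o[atTop] (fun n => (N n : ℝ))

theorem Small.of_le {N : ℕ → ℕ} {f g : ℕ → ℝ} (hg : Small N g) (h0 : ∀ n, 0 ≤ f n)
    (h : ∀ n, f n ≤ g n) : Small N f :=
  (IsBigO.of_norm_le (fun n => by rw [Real.norm_of_nonneg (h0 n)]; exact h n)).trans_isLittleO hg

theorem Small.of_abs_le {N : ℕ → ℕ} {f g : ℕ → ℝ} (hg : Small N g)
    (h : ∀ n, |f n| ≤ g n) : Small N f :=
  (IsBigO.of_norm_le (fun n => h n)).trans_isLittleO hg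

theorem Small.mono {k N : ℕ → ℕ} {f : ℕ → ℝ} (hf : Small k f) (h : ∀ n, k n ≤ N n) :
    Small N f :=
  hf.trans_isBigO (IsBigO.of_norm_le (fun n => by
    rw [Real.norm_of_nonneg (by positivity)]; exact_mod_cast h n))

theorem Small.of_sq {N : ℕ → ℕ} {f g : ℕ → ℝ} (hg : Small N g)
    (h : ∀ n, f n ^ 2 ≤ g n * N n) : Small N f := by
  rw [Small, isLittleO_iff] at hg ⊢
  intro c hc
  filter_upwards [hg (pow_pos hc 2)] with n hn
  rw [Real.norm_of_nonneg (by positivity : (0 : ℝ) ≤ N n)] at hn ⊢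
  have h1 : g n ≤ c ^ 2 * N n := (le_abs_self _).trans hn
  have h2 : f n ^ 2 ≤ (c * N n) ^ 2 := by
    have : (0 : ℝ) ≤ N n := by positivity
    nlinarith [h n]
  exact abs_le_of_sq_le_sq' h2 (by positivity) |> fun h => abs_le.2 h

theorem Small.of_sq' {N a : ℕ → ℕ} {f g : ℕ → ℝ} (hg : Small N g)
    (h : ∀ n, f n ^ 2 * N n ≤ g n * (a n) ^ 2) (h0 : ∀ n, N n = 0 → f n = 0) : Small a f := by
  rw [Small, isLittleO_iff] at hg ⊢
  intro c hc
  filter_upwards [hg (pow_pos hc 2)] with n hn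
  rw [Real.norm_of_nonneg (by positivity : (0 : ℝ) ≤ N n)] at hn
  rw [Real.norm_of_nonneg (by positivity : (0 : ℝ) ≤ a n)]
  rcases Nat.eq_zero_or_pos (N n) with hN | hN
  · rw [h0 n hN, norm_zero]
    positivity
  have hN' : (0 : ℝ) < N n := by exact_mod_cast hN
  have h1 : g n ≤ c ^ 2 * N n := (le_abs_self _).trans hn
  have h2 : f n ^ 2 ≤ (c * a n) ^ 2 := by
    have h3 : f n ^ 2 * N n ≤ (c * a n) ^ 2 * N n := by
      have : (0 : ℝ) ≤ (a n : ℝ) ^ 2 := by positivity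
      nlinarith [h n]
    exact le_of_mul_le_mul_right h3 hN'
  exact abs_le_of_sq_le_sq' h2 (by positivity) |> fun h => abs_le.2 h

namespace Model

variable (M : Model)

def Stable (G : Type) [Group G] : Prop :=
  ∀ (k : ℕ → ℕ) (φ : ∀ n, G → M.C (k n)),
    (∀ a b, Small k (fun n => M.D (φ n a * φ n b) (φ n (a * b)))) →
    ∃ ψ : ∀ n, G →* M.C (k n), ∀ a, Small k (fun n => M.D (φ n a) (ψ n a))

variable {M}

theorem small_tri {k N : ℕ → ℕ} {x y z : ∀ n, M.C (k n)}
    (h1 : Small N (fun n => M.D (x n) (y n))) (h2 : Small N (fun n => M.D (y n) (z n))) :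
    Small N (fun n => M.D (x n) (z n)) :=
  Small.of_le ((h1.const_mul_left 2).add (h2.const_mul_left 2)) (fun _ => M.D_nonneg _ _)
    (fun _ => M.D_tri _ _ _)

theorem small_symm {k N : ℕ → ℕ} {x y : ∀ n, M.C (k n)}
    (h1 : Small N (fun n => M.D (x n) (y n))) : Small N (fun n => M.D (y n) (x n)) := by
  simpa only [M.D_symm] using h1

theorem small_mul {k N : ℕ → ℕ} {x y x' y' : ∀ n, M.C (k n)}
    (h1 : Small N (fun n => M.D (x n) (x' n))) (h2 : Small N (fun n => M.D (y n) (y' n))) :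
    Small N (fun n => M.D (x n * y n) (x' n * y' n)) := by
  refine small_tri (y := fun n => x' n * y n) ?_ ?_
  · simpa only [M.D_mul_right] using h1
  · simpa only [M.D_mul_left] using h2

theorem D_conj {n : ℕ} (u x y : M.C n) : M.D (u * x * u⁻¹) (u * y * u⁻¹) = M.D x y := by
  rw [M.D_mul_right, M.D_mul_left]

theorem D_conj_le {n : ℕ} (u x : M.C n) : M.D (u * x * u⁻¹) x ≤ 4 * M.D u 1 := by
  have h1 := M.D_tri (u * x * u⁻¹) (x * u⁻¹) x
  have h2 : M.D (u * x * u⁻¹) (x * u⁻¹) = M.D u 1 := by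
    rw [M.D_mul_right, ← M.D_mul_right x u 1, one_mul]
  have h3 : M.D (x * u⁻¹) x = M.D u 1 := by
    rw [← M.D_mul_right u, inv_mul_cancel_right, ← M.D_mul_left x⁻¹, inv_mul_cancel,
      inv_mul_cancel_left, M.D_symm]
  linarith

theorem D_zero (x y : M.C 0) : M.D x y = 0 :=
  le_antisymm (by simpa using M.D_le x y) (M.D_nonneg x y)

/-- The representation `g ↦ u (π g ⊕ l g) u⁻¹`. -/
def glue {G : Type} [Group G] {a b n : ℕ} (h : a + b = n) (u : M.C n) (π : G →* M.C a)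
    (l : G →* M.C b) : G →* M.C n :=
  (MulAut.conj u).toMonoidHom.comp ((M.bs h).comp (π.prod l))

theorem glue_apply {G : Type} [Group G] {a b n : ℕ} (h : a + b = n) (u : M.C n) (π : G →* M.C a)
    (l : G →* M.C b) (g : G) : glue h u π l g = u * M.bs h (π g, l g) * u⁻¹ := rfl

end Model

structure HInv (M : Model) (H : Type) [Group H] where
  J : Type
  fJ : Fintype J
  c : ∀ {n : ℕ}, (H →* M.C n) → J → ℂ
  τ : J → ℂ
  c_one : ∀ (n : ℕ) (j : J), c (1 : H →* M.C n) j = n * τ j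
  w : J → ℂ
  size : ∀ {n : ℕ} (α : H →* M.C n), (n : ℂ) = ∑ j, w j * c α j
  integral : ∀ {a b : ℕ} (α : H →* M.C a) (β : H →* M.C b),
    ∃ z : ℤ, ∑ j, c α j * (starRingEnd ℂ) (c β j) = z
  cont : ∀ (k : ℕ → ℕ) (α β : ∀ n, H →* M.C (k n)),
    (∀ h, Small k (fun n => M.D (α n h) (β n h))) →
    ∀ j, Small k (fun n => ‖c (α n) j - c (β n) j‖)
  rigid : ∀ (k : ℕ → ℕ) (α β : ∀ n, H →* M.C (k n)), (∀ n, c (α n) = c (β n)) →
    (∀ h, Small k (fun n => M.D (α n h) (β n h))) →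
    ∃ u : ∀ n, M.C (k n), (∀ n h, u n * α n h * (u n)⁻¹ = β n h) ∧
      Small k (fun n => M.D (u n) 1)

attribute [instance] HInv.fJ

structure TypeSys {M : Model} {H : Type} [Group H] (I : HInv M H) {G : Type} [Group G]
    (φ : H →* G) where
  T : Type
  fT : Fintype T
  m : ∀ {n : ℕ}, (G →* M.C n) → T → ℕ
  b : T → I.J → ℂ
  m_glue : ∀ {a b n : ℕ} (h : a + b = n) (u : M.C n) (π : G →* M.C a) (l : G →* M.C b) (t : T),
    m (Model.glue h u π l) t = m π t + m l t
  m_sum : ∀ {n : ℕ} (ψ : G →* M.C n), ∑ t, m ψ t = n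
  split : ∀ {n : ℕ} (ψ : G →* M.C n) (t : T), ∃ (a b : ℕ) (h : a + b = n) (u : M.C n)
    (π : G →* M.C a) (l : G →* M.C b), ψ = Model.glue h u π l ∧ m π t = a ∧ m l t = 0
  cont : ∀ (k N : ℕ → ℕ), (∀ n, k n ≤ N n) → ∀ (ψ ψ' : ∀ n, G →* M.C (k n)),
    (∀ g, Small N (fun n => M.D (ψ n g) (ψ' n g))) →
    ∀ t, Small N (fun n => (m (ψ n) t : ℝ) - m (ψ' n) t)
  formula : ∀ {n : ℕ} (ψ : G →* M.C n) (j : I.J), I.c (ψ.comp φ) j = ∑ t, m ψ t * b t j

attribute [instance] TypeSys.fT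

namespace TypeSys

variable {M : Model} {H : Type} [Group H] {I : HInv M H} {G : Type} [Group G] {φ : H →* G}
  (Y : TypeSys I φ)

include Y in
theorem c_glue {a b n : ℕ} (h : a + b = n) (u : M.C n) (π : G →* M.C a) (l : G →* M.C b)
    (j : I.J) : I.c ((Model.glue h u π l).comp φ) j = I.c (π.comp φ) j + I.c (l.comp φ) j := by
  simp only [Y.formula, Y.m_glue, Nat.cast_add, add_mul, Finset.sum_add_distrib]

theorem m_le {n : ℕ} (ψ : G →* M.C n) (t : Y.T) : Y.m ψ t ≤ n := by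
  conv_rhs => rw [← Y.m_sum ψ]
  exact Finset.single_le_sum (f := fun t => Y.m ψ t) (fun _ _ => Nat.zero_le _) (mem_univ t)

theorem m_eq_zero_of_pure {n : ℕ} {ψ : G →* M.C n} {t : Y.T} (h : Y.m ψ t = n) {t' : Y.T}
    (ht : t' ≠ t) : Y.m ψ t' = 0 := by
  classical
  have h1 := Y.m_sum ψ
  rw [← Finset.add_sum_erase _ _ (mem_univ t), h] at h1
  have h2 : ∑ x ∈ univ.erase t, Y.m ψ x = 0 := by omega
  exact (Finset.sum_eq_zero_iff.1 h2) t' (by simp [ht])

theorem c_pure {n : ℕ} {ψ : G →* M.C n} {t : Y.T} (h : Y.m ψ t = n) (j : I.J) :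
    I.c (ψ.comp φ) j = n * Y.b t j := by
  rw [Y.formula, Finset.sum_eq_single t, h]
  · intro t' _ ht
    rw [Y.m_eq_zero_of_pure h ht]
    simp
  · simp

def S (t : Y.T) : AddSubmonoid ℕ where
  carrier := {k | ∃ π : G →* M.C k, Y.m π t = k}
  zero_mem' := ⟨1, Nat.le_zero.1 (Y.m_le _ t)⟩
  add_mem' := by
    rintro a b ⟨π, hπ⟩ ⟨l, hl⟩
    exact ⟨Model.glue rfl 1 π l, by rw [Y.m_glue, hπ, hl]⟩

theorem m_mem_S {n : ℕ} (ψ : G →* M.C n) (t : Y.T) : Y.m ψ t ∈ Y.S t := by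
  obtain ⟨a, b, h, u, π, l, rfl, h1, h2⟩ := Y.split ψ t
  rw [Y.m_glue, h1, h2, add_zero]
  exact ⟨π, h1⟩

theorem refill (t : Y.T) {a r k p q y : ℕ} (h : a + r = k) (hpq : p + q = a) (u : M.C a)
    (π : G →* M.C p) (l : G →* M.C q) (hπ : Y.m π t = p) (hy : y ≤ k) (hpy : p ≤ y)
    (hS : y - p ∈ Y.S t) :
    ∃ ψ' : G →* M.C k,
      (∀ g, M.D (ψ' g) (M.bs h (Model.glue hpq u π l g, 1)) ≤ 4 * ((q : ℝ) + r)) ∧
      ∀ j, I.c (ψ'.comp φ) j = y * Y.b t j + ((k : ℂ) - y) * I.τ j := by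
  obtain ⟨E, hE⟩ := hS
  have h3 : (y - p) + (k - y) = q + r := by omega
  have h4 : p + (q + r) = k := by omega
  refine ⟨Model.glue h4 (M.bs h (u, 1)) π (Model.glue h3 1 E 1), fun g => ?_, fun j => ?_⟩
  · have : M.bs h (Model.glue hpq u π l g, 1) =
        M.bs h (u, 1) * M.bs h4 (π g, M.bs rfl (l g, 1)) * (M.bs h (u, 1))⁻¹ := by
      rw [← M.bs_assoc hpq h rfl h4, ← map_inv, ← map_mul, ← map_mul, Model.glue_apply]
      simp
    rw [this, Model.glue_apply, Model.D_conj, M.D_bs, M.D_self, zero_add]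
    exact_mod_cast M.D_le _ _
  · rw [Y.c_glue, Y.c_glue, Y.c_pure hπ, Y.c_pure hE, MonoidHom.one_comp, I.c_one,
      Nat.cast_sub hpy, Nat.cast_sub hy]
    ring

theorem pureShrink (hG : M.Stable G) (t : Y.T) (k N : ℕ → ℕ) (hkN : ∀ n, k n ≤ N n)
    (ψ : ∀ n, G →* M.C (k n)) (hψ : ∀ n, Y.m (ψ n) t = k n) (y : ℕ → ℕ) (hy : ∀ n, y n ≤ k n)
    (hyS : ∀ n, y n ∈ Y.S t) (hsmall : Small N (fun n => (k n : ℝ) - y n)) :
    ∃ ψ' : ∀ n, G →* M.C (k n), (∀ g, Small N (fun n => M.D (ψ' n g) (ψ n g))) ∧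
      ∀ n j, I.c ((ψ' n).comp φ) j = y n * Y.b t j + ((k n : ℂ) - y n) * I.τ j := by
  classical
  obtain ⟨B, hB⟩ := conductor (Y.S t)
  let r₀ : ℕ → ℕ := fun n => (B + 1) * (k n - y n)
  have hr₀ : Small N (fun n => (r₀ n : ℝ)) := by
    refine (hsmall.const_mul_left ((B : ℝ) + 1)).congr_left fun n => ?_
    simp only [r₀]
    push_cast [Nat.cast_sub (hy n)]
    ring
  let large : ℕ → Prop := fun n => r₀ n ≤ k n ∧ r₀ n * N n ≤ (k n - r₀ n) ^ 2
  let r : ℕ → ℕ := fun n => if large n then r₀ n else k n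
  let a : ℕ → ℕ := fun n => k n - r n
  have hrk : ∀ n, r n ≤ k n := fun n => by
    simp only [r]
    split_ifs with h
    · exact h.1
    · exact le_rfl
  have har : ∀ n, a n + r n = k n := fun n => Nat.sub_add_cancel (hrk n)
  have hr : Small N (fun n => (r n : ℝ)) := by
    have h2 : Small N (fun n => ((r n - r₀ n : ℕ) : ℝ)) := by
      refine hr₀.of_sq fun n => ?_
      have : (r n - r₀ n) ^ 2 ≤ r₀ n * N n := by
        simp only [r]
        split_ifs with h
        · simp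
        · by_cases h' : r₀ n ≤ k n
          · have : ¬ r₀ n * N n ≤ (k n - r₀ n) ^ 2 := fun h'' => h ⟨h', h''⟩
            omega
          · rw [Nat.sub_eq_zero_of_le (by omega)]
            simp
      exact_mod_cast this
    refine Small.of_le (h2.add hr₀) (fun n => by positivity) fun n => ?_
    have : r n ≤ (r n - r₀ n) + r₀ n := by omega
    exact_mod_cast this
  choose f hf using fun n g => M.cut (har n) (ψ n g)
  have hdef : ∀ n g g', M.D (f n g * f n g') (f n (g * g')) ≤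
      (if large n then 160 * (r₀ n : ℝ) else 0) := by
    intro n g g'
    split_ifs with h
    · have hrn : r n = r₀ n := if_pos h
      have e1 : M.D (f n g * f n g') (f n (g * g')) =
          M.D (M.bs (har n) (f n g, 1) * M.bs (har n) (f n g', 1))
            (M.bs (har n) (f n (g * g'), 1)) := by
        rw [← map_mul, Prod.mk_mul_mk, M.D_bs, one_mul, M.D_self, add_zero]
      have e2 := M.D_tri (M.bs (har n) (f n g, 1) * M.bs (har n) (f n g', 1)) (ψ n (g * g'))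
        (M.bs (har n) (f n (g * g'), 1))
      have e3 := M.D_tri (M.bs (har n) (f n g, 1) * M.bs (har n) (f n g', 1))
        (ψ n g * M.bs (har n) (f n g', 1)) (ψ n g * ψ n g')
      rw [M.D_mul_right, M.D_mul_left, ← map_mul (ψ n), M.D_symm _ (ψ n g),
        M.D_symm _ (ψ n g')] at e3
      have e4 := hf n g
      have e5 := hf n g'
      have e6 := hf n (g * g')
      rw [← hrn, e1]
      linarith
    · have hrn : r n = k n := if_neg h
      have ha : a n = 0 := by simp only [a]; omega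
      have := M.D_le (f n g * f n g') (f n (g * g'))
      have ha' : (a n : ℝ) = 0 := by exact_mod_cast ha
      rw [ha'] at this
      simpa using this
  have hasym : ∀ g g', Small a (fun n => M.D (f n g * f n g') (f n (g * g'))) := by
    intro g g'
    refine Small.of_le (g := fun n => if large n then 160 * (r₀ n : ℝ) else 0) ?_
      (fun n => M.D_nonneg _ _) (fun n => hdef n g g')
    refine Small.of_sq' (hr₀.const_mul_left (160 ^ 2)) (fun n => ?_) (fun n hn => ?_)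
    · split_ifs with h
      · have hrn : r n = r₀ n := if_pos h
        have h1 : r₀ n * N n ≤ (a n) ^ 2 := by
          simp only [a]
          rw [hrn]
          exact h.2
        have h2 : (r₀ n : ℝ) * N n ≤ (a n) ^ 2 := by exact_mod_cast h1
        have h3 : (0 : ℝ) ≤ r₀ n := by positivity
        nlinarith
      · simp only [ne_eq, OfNat.ofNat_ne_zero, not_false_eq_true, zero_pow, zero_mul]
        positivity
    · have : r₀ n = 0 := by
        have := hkN n
        simp only [r₀]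
        rw [Nat.sub_eq_zero_of_le (by omega), mul_zero]
      simp [this]
  obtain ⟨χ, hχ⟩ := hG a f hasym
  have haN : ∀ n, a n ≤ N n := fun n => (Nat.sub_le _ _).trans (hkN n)
  have hclose : ∀ g, Small N (fun n => M.D (M.bs (har n) (χ n g, 1)) (ψ n g)) := by
    intro g
    refine Model.small_tri (y := fun n => M.bs (har n) (f n g, 1)) ?_ ?_
    · refine ((Model.small_symm (hχ g)).mono haN).congr_left fun n => ?_
      rw [M.D_bs, M.D_self, add_zero]
    · exact Small.of_le (hr.const_mul_left 16) (fun n => M.D_nonneg _ _)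
        (fun n => by rw [M.D_symm]; exact hf n g)
  choose p q hpq u π l hχeq hπ hl using fun n => Y.split (χ n) t
  have hq : Small N (fun n => (q n : ℝ)) := by
    have h1 := Y.cont k N hkN ψ (fun n => Model.glue (har n) 1 (χ n) 1)
      (fun g => by
        refine (Model.small_symm (hclose g)).congr_left fun n => ?_
        simp [Model.glue_apply]) t
    refine Small.of_le h1 (fun n => by positivity) fun n => ?_
    rw [hψ, Y.m_glue, hχeq n, Y.m_glue, hπ, hl]
    have h2 := Y.m_le (1 : G →* M.C (r n)) t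
    have h3 : q n + (p n + 0 + Y.m (1 : G →* M.C (r n)) t) ≤ k n := by
      have := har n
      have := hpq n
      omega
    have h4 : (q n : ℝ) + ((p n + 0 + Y.m (1 : G →* M.C (r n)) t : ℕ) : ℝ) ≤ k n := by
      exact_mod_cast h3
    linarith
  have hfinal : ∀ n, ∃ ψ' : G →* M.C (k n),
      (∀ g, M.D (ψ' g) (ψ n g) ≤
        2 * (4 * ((q n : ℝ) + r n)) + 2 * M.D (M.bs (har n) (χ n g, 1)) (ψ n g)) ∧
      ∀ j, I.c (ψ'.comp φ) j = y n * Y.b t j + ((k n : ℂ) - y n) * I.τ j := by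
    intro n
    by_cases hyk : y n = k n
    · refine ⟨ψ n, fun g => ?_, fun j => ?_⟩
      · rw [M.D_self]
        have := M.D_nonneg (M.bs (har n) (χ n g, 1)) (ψ n g)
        positivity
      · rw [Y.c_pure (hψ n), hyk]
        simp
    · have hpy : p n ≤ y n ∧ y n - p n ∈ Y.S t := by
        by_cases h : large n
        · have hrn : r n = r₀ n := if_pos h
          have h1 : p n + B ≤ y n := by
            have e1 := har n
            have e2 := hpq n
            have e3 := hy n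
            have e4 : r₀ n = B * (k n - y n) + (k n - y n) := by simp only [r₀]; ring
            have e5 : B ≤ B * (k n - y n) := Nat.le_mul_of_pos_right _ (by omega)
            omega
          exact ⟨by omega, hB _ (hyS n) _ ⟨π n, hπ n⟩ h1⟩
        · have hrn : r n = k n := if_neg h
          have hp : p n = 0 := by
            have e1 := har n
            have e2 := hpq n
            omega
          rw [hp]
          exact ⟨Nat.zero_le _, hyS n⟩
      obtain ⟨ψ', h1, h2⟩ := Y.refill t (har n) (hpq n) (u n) (π n) (l n) (hπ n) (hy n)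
        hpy.1 hpy.2
      refine ⟨ψ', fun g => ?_, h2⟩
      have e1 := M.D_tri (ψ' g) (M.bs (har n) (χ n g, 1)) (ψ n g)
      have e2 := h1 g
      rw [← hχeq n] at e2
      linarith
  choose ψ' h1 h2 using hfinal
  refine ⟨ψ', fun g => ?_, h2⟩
  exact Small.of_le ((((hq.add hr).const_mul_left 4).const_mul_left 2).add
    ((hclose g).const_mul_left 2)) (fun n => M.D_nonneg _ _) (fun n => h1 n g)

theorem shrink_aux (hG : M.Stable G) (N : ℕ → ℕ) (s : Finset Y.T) :
    ∀ (k : ℕ → ℕ), (∀ n, k n ≤ N n) → ∀ (ψ : ∀ n, G →* M.C (k n)),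
      (∀ n t, t ∉ s → Y.m (ψ n) t = 0) → ∀ (y : ℕ → Y.T → ℕ), (∀ n t, y n t ≤ Y.m (ψ n) t) →
      (∀ n t, y n t ∈ Y.S t) → (∀ t, Small N (fun n => (Y.m (ψ n) t : ℝ) - y n t)) →
      ∃ ψ' : ∀ n, G →* M.C (k n), (∀ g, Small N (fun n => M.D (ψ' n g) (ψ n g))) ∧
        ∀ n j, I.c ((ψ' n).comp φ) j =
          ∑ t ∈ s, y n t * Y.b t j + ((k n : ℂ) - ∑ t ∈ s, y n t) * I.τ j := by
  classical
  induction s using Finset.induction_on with
  | empty =>
    intro k hkN ψ hψ y _ _ _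
    refine ⟨ψ, fun g => by simp [M.D_self, Small], fun n j => ?_⟩
    have h0 : ∀ t, Y.m (ψ n) t = 0 := fun t => hψ n t (by simp)
    have hk : k n = 0 := by rw [← Y.m_sum (ψ n)]; simp [h0]
    rw [Y.formula]
    simp [h0, hk]
  | insert t s hts ih =>
    intro k hkN ψ hψ y hy hyS hsmall
    choose a b hab u π l heq hπ hl using fun n => Y.split (ψ n) t
    have hma : ∀ n, Y.m (ψ n) t = a n := fun n => by rw [heq n, Y.m_glue, hπ, hl, add_zero]
    have hmb : ∀ n t', t' ≠ t → Y.m (ψ n) t' = Y.m (l n) t' := fun n t' ht => by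
      rw [heq n, Y.m_glue, Y.m_eq_zero_of_pure (hπ n) ht, zero_add]
    obtain ⟨π', hπ'1, hπ'2⟩ := Y.pureShrink hG t a N
      (fun n => le_trans (by have := hab n; omega) (hkN n)) π hπ (fun n => y n t)
      (fun n => hma n ▸ hy n t) (fun n => hyS n t) (by simpa only [hma] using hsmall t)
    obtain ⟨l', hl'1, hl'2⟩ := ih b (fun n => le_trans (by have := hab n; omega) (hkN n)) l
      (fun n t' ht' => by
        by_cases h : t' = t
        · rw [h, hl]
        · rw [← hmb n t' h]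
          exact hψ n t' (by simp [h, ht']))
      (fun n t' => if t' = t then 0 else y n t')
      (fun n t' => by
        split_ifs with h
        · exact Nat.zero_le _
        · rw [← hmb n t' h]
          exact hy n t')
      (fun n t' => by
        split_ifs with h
        · exact zero_mem _
        · exact hyS n t')
      (fun t' => by
        by_cases h : t' = t
        · simp [h, hl, Small]
        · simpa only [h, if_false, ← hmb _ t' h] using hsmall t')
    refine ⟨fun n => Model.glue (hab n) (u n) (π' n) (l' n), fun g => ?_, fun n j => ?_⟩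
    · refine ((hπ'1 g).add (hl'1 g)).congr_left fun n => ?_
      conv_rhs => rw [heq n]
      rw [Model.glue_apply, Model.glue_apply, Model.D_conj, M.D_bs]
    · have e1 : ∀ t' ∈ s, (if t' = t then 0 else y n t') = y n t' := fun t' ht' =>
        if_neg (fun h : t' = t => hts (h ▸ ht'))
      rw [Y.c_glue, hπ'2, hl'2, Finset.sum_insert hts, Finset.sum_insert hts,
        Finset.sum_congr rfl e1,
        Finset.sum_congr rfl (fun t' ht' => by rw [e1 t' ht'] :
          ∀ t' ∈ s, (((if t' = t then 0 else y n t' : ℕ)) : ℂ) * Y.b t' j = y n t' * Y.b t' j),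
        ← hab n]
      push_cast
      ring

theorem shrink (hG : M.Stable G) (k : ℕ → ℕ) (ψ : ∀ n, G →* M.C (k n))
    (y : ℕ → Y.T → ℕ) (hy : ∀ n t, y n t ≤ Y.m (ψ n) t) (hyS : ∀ n t, y n t ∈ Y.S t)
    (hsmall : ∀ t, Small k (fun n => (Y.m (ψ n) t : ℝ) - y n t)) :
    ∃ ψ' : ∀ n, G →* M.C (k n), (∀ g, Small k (fun n => M.D (ψ' n g) (ψ n g))) ∧
      ∀ n j, I.c ((ψ' n).comp φ) j =
        ∑ t, y n t * Y.b t j + ((k n : ℂ) - ∑ t, y n t) * I.τ j :=
  Y.shrink_aux hG k univ k (fun _ => le_rfl) ψ (fun _ t h => absurd (mem_univ t) h) y hy hyS hsmall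

theorem size_S {t : Y.T} {a : ℕ} (ha : a ∈ Y.S t) :
    (a : ℂ) = ∑ j, I.w j * (a * Y.b t j) := by
  obtain ⟨π, hπ⟩ := ha
  simpa only [Y.c_pure hπ] using I.size (π.comp φ)

end TypeSys

theorem matching {M : Model} {H : Type} [Group H] (I : HInv M H) {ι : Type} [Finite ι]
    (i₀ : ι) {G : ι → Type} [∀ i, Group (G i)] {φ : ∀ i, H →* G i} (Y : ∀ i, TypeSys I (φ i))
    (hG : ∀ i, M.Stable (G i)) (k : ℕ → ℕ) (ψ : ∀ i n, G i →* M.C (k n))
    (hψ : ∀ i h, Small k (fun n => M.D (ψ i n (φ i h)) (ψ i₀ n (φ i₀ h)))) :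
    ∃ ρ : ∀ i n, G i →* M.C (k n), (∀ i g, Small k (fun n => M.D (ρ i n g) (ψ i n g))) ∧
      ∀ i n, (ρ i n).comp (φ i) = (ρ i₀ n).comp (φ i₀) := by
  classical
  have := Fintype.ofFinite ι
  let ε : ι → ι → ℤ := fun i i' => (if i = i' then 1 else 0) - (if i = i₀ then 1 else 0)
  obtain ⟨C, hC0, hC⟩ := hoffman_monoid (I := Σ i, (Y i).T) (J := ι × I.J)
    (fun s => (Y s.1).S s.2) (fun s j => ε s.1 j.1 * (Y s.1).b s.2 j.2) (by
      rintro ⟨i, t⟩ ⟨i', t'⟩ a ⟨π, hπ⟩ a' ⟨π', hπ'⟩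
      obtain ⟨z, hz⟩ := I.integral (π.comp (φ i)) (π'.comp (φ i'))
      refine ⟨(∑ i'', ε i i'' * ε i' i'') * z, ?_⟩
      push_cast
      rw [← hz, Fintype.sum_prod_type, Finset.sum_mul]
      refine Finset.sum_congr rfl fun i'' _ => ?_
      rw [Finset.mul_sum]
      refine Finset.sum_congr rfl fun j _ => ?_
      rw [(Y i).c_pure hπ, (Y i').c_pure hπ']
      simp only [map_mul, map_intCast, map_natCast]
      ring)
  have hsum : ∀ (x : (Σ i, (Y i).T) → ℕ) (j : ι × I.J),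
      ∑ s : (Σ i, (Y i).T), (x s : ℂ) * (ε s.1 j.1 * (Y s.1).b s.2 j.2) =
        ∑ t, (x ⟨j.1, t⟩ : ℂ) * (Y j.1).b t j.2 - ∑ t, (x ⟨i₀, t⟩ : ℂ) * (Y i₀).b t j.2 := by
    intro x j
    rw [Fintype.sum_sigma]
    have : ∀ i, ∑ t, (x ⟨i, t⟩ : ℂ) * (ε i j.1 * (Y i).b t j.2) =
        (if i = j.1 then ∑ t, (x ⟨i, t⟩ : ℂ) * (Y i).b t j.2 else 0) -
        (if i = i₀ then ∑ t, (x ⟨i, t⟩ : ℂ) * (Y i).b t j.2 else 0) := by
      intro i
      have h1 : ∑ t, (x ⟨i, t⟩ : ℂ) * (ε i j.1 * (Y i).b t j.2) =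
          ε i j.1 * ∑ t, (x ⟨i, t⟩ : ℂ) * (Y i).b t j.2 := by
        rw [Finset.mul_sum]
        exact Finset.sum_congr rfl fun t _ => by ring
      rw [h1]
      simp only [ε]
      split_ifs <;> simp
    simp only [this, Finset.sum_sub_distrib, Finset.sum_ite_eq', mem_univ, if_true]
  choose y hy hyS hy0 hyb using fun n =>
    hC (fun s => (Y s.1).m (ψ s.1 n) s.2) (fun s => (Y s.1).m_mem_S _ _)
  have hE : Small k (fun n => C * ∑ j : ι × I.J,
      ‖∑ s : (Σ i, (Y i).T),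
        (((Y s.1).m (ψ s.1 n) s.2 : ℕ) : ℂ) * (ε s.1 j.1 * (Y s.1).b s.2 j.2)‖) := by
    refine IsLittleO.const_mul_left (IsLittleO.fun_sum fun j _ => ?_) C
    refine (I.cont k (fun n => (ψ j.1 n).comp (φ j.1)) (fun n => (ψ i₀ n).comp (φ i₀))
      (fun h => hψ j.1 h) j.2).congr_left fun n => ?_
    rw [hsum (fun s => (Y s.1).m (ψ s.1 n) s.2) j, (Y j.1).formula, (Y i₀).formula]
  have hsm : ∀ i t, Small k (fun n => ((Y i).m (ψ i n) t : ℝ) - y n ⟨i, t⟩) := by
    intro i t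
    have h0 : ∀ n (s : Σ i, (Y i).T), (0 : ℝ) ≤ ((Y s.1).m (ψ s.1 n) s.2 : ℝ) - y n s :=
      fun n s => sub_nonneg.2 (by exact_mod_cast hy n s)
    refine Small.of_le hE (fun n => h0 n ⟨i, t⟩) fun n => le_trans ?_ (hyb n)
    rw [← Finset.sum_sub_distrib]
    exact Finset.single_le_sum (f := fun s : (Σ i, (Y i).T) =>
      ((Y s.1).m (ψ s.1 n) s.2 : ℝ) - y n s) (fun s _ => h0 n s) (mem_univ ⟨i, t⟩)
  choose ρ hρ1 hρ2 using fun i => (Y i).shrink (hG i) k (ψ i) (fun n t => y n ⟨i, t⟩)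
    (fun n t => hy n ⟨i, t⟩) (fun n t => hyS n ⟨i, t⟩) (hsm i)
  have hc : ∀ i n, I.c ((ρ i n).comp (φ i)) = I.c ((ρ i₀ n).comp (φ i₀)) := by
    intro i n
    have h1 : ∀ j, ∑ t, (y n ⟨i, t⟩ : ℂ) * (Y i).b t j =
        ∑ t, (y n ⟨i₀, t⟩ : ℂ) * (Y i₀).b t j := by
      intro j
      have := hy0 n (i, j)
      rw [hsum] at this
      exact sub_eq_zero.1 this
    have h2 : ∀ i, ((∑ t, y n ⟨i, t⟩ : ℕ) : ℂ) =
        ∑ j, I.w j * ∑ t, (y n ⟨i, t⟩ : ℂ) * (Y i).b t j := by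
      intro i
      push_cast
      simp_rw [Finset.mul_sum]
      rw [Finset.sum_comm]
      exact Finset.sum_congr rfl fun t _ => (Y i).size_S (hyS n ⟨i, t⟩)
    funext j
    rw [hρ2, hρ2, h1, h2, h2]
    simp only [h1]
  have hclose : ∀ i h, Small k (fun n => M.D (ρ i n (φ i h)) (ρ i₀ n (φ i₀ h))) := fun i h =>
    Model.small_tri (hρ1 i _) (Model.small_tri (hψ i h) (Model.small_symm (hρ1 i₀ _)))
  choose u hu1 hu2 using fun i => I.rigid k (fun n => (ρ i n).comp (φ i))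
    (fun n => (ρ i₀ n).comp (φ i₀)) (hc i) (hclose i)
  refine ⟨fun i n => (MulAut.conj (u i n)).toMonoidHom.comp (ρ i n), fun i g => ?_,
    fun i n => ?_⟩
  · refine Model.small_tri (y := fun n => ρ i n g) ?_ (hρ1 i g)
    exact Small.of_le ((hu2 i).const_mul_left 4) (fun n => M.D_nonneg _ _)
      (fun n => Model.D_conj_le _ _)
  · ext h
    exact (hu1 i n h).trans (hu1 i₀ n h).symm

theorem stable_pushout {M : Model} {H : Type} [Group H] (I : HInv M H) {ι : Type} [Finite ι]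
    [Nonempty ι] {G : ι → Type} [∀ i, Group (G i)] {φ : ∀ i, H →* G i}
    (Y : ∀ i, TypeSys I (φ i)) (hG : ∀ i, M.Stable (G i)) : M.Stable (Monoid.PushoutI φ) := by
  intro k f hf
  obtain ⟨i₀⟩ := ‹Nonempty ι›
  choose ψ hψ using fun i => hG i k (fun n g => f n (Monoid.PushoutI.of i g))
    (fun a b => by simpa only [map_mul] using hf _ _)
  obtain ⟨ρ, hρ1, hρ2⟩ := matching I i₀ Y hG k ψ (fun i h => by
    refine Model.small_tri (Model.small_symm (hψ i _)) ?_
    simpa only [Monoid.PushoutI.of_apply_eq_base] using hψ i₀ (φ i₀ h))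
  refine ⟨fun n => Monoid.PushoutI.lift (fun i => ρ i n) ((ρ i₀ n).comp (φ i₀))
    (fun i => hρ2 i n), fun a => ?_⟩
  have hof : ∀ i g, Small k (fun n => M.D (f n (Monoid.PushoutI.of i g)) (ρ i n g)) :=
    fun i g => Model.small_tri (hψ i g) (Model.small_symm (hρ1 i g))
  induction a using Monoid.PushoutI.induction_on with
  | of i g => simpa only [Monoid.PushoutI.lift_of] using hof i g
  | base h =>
    simpa only [Monoid.PushoutI.lift_base, Monoid.PushoutI.of_apply_eq_base,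
      MonoidHom.comp_apply] using hof i₀ (φ i₀ h)
  | mul x y hx hy =>
    refine Model.small_tri (Model.small_symm (hf x y)) ?_
    simpa only [map_mul] using Model.small_mul hx hy

end Pool.Agent.Lib.MP_098da0_al
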