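import Mathlib

namespace Pool.Agent.Lib.MP_098da0_al

open Finset

/-- The identification `Fin a ⊕ Fin b ≃ Fin n` for `a + b = n`. -/
def sumE {a b n : ℕ} (h : a + b = n) : Fin a ⊕ Fin b ≃ Fin n :=
  finSumFinEquiv.trans (finCongr h)

@[simp] theorem sumE_inl_val {a b n : ℕ} (h : a + b = n) (i : Fin a) :
    (sumE h (Sum.inl i) : ℕ) = i := by simp [sumE]

@[simp] theorem sumE_inr_val {a b n : ℕ} (h : a + b = n) (j : Fin b) :
    (sumE h (Sum.inr j) : ℕ) = a + j := by simp [sumE]

theorem sumE_assoc1 {a b c m m' n : ℕ} (h1 : a + b = m) (h2 : m + c = n) (h4 : a + m' = n)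
    (i : Fin a) : sumE h2 (Sum.inl (sumE h1 (Sum.inl i))) = sumE h4 (Sum.inl i) :=
  Fin.ext (by simp)

theorem sumE_assoc2 {a b c m m' n : ℕ} (h1 : a + b = m) (h2 : m + c = n) (h3 : b + c = m')
    (h4 : a + m' = n) (i : Fin b) :
    sumE h2 (Sum.inl (sumE h1 (Sum.inr i))) = sumE h4 (Sum.inr (sumE h3 (Sum.inl i))) :=
  Fin.ext (by simp)

theorem sumE_assoc3 {a b c m m' n : ℕ} (h1 : a + b = m) (h2 : m + c = n) (h3 : b + c = m')
    (h4 : a + m' = n) (i : Fin c) :
    sumE h2 (Sum.inr i) = sumE h4 (Sum.inr (sumE h3 (Sum.inr i))) :=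
  Fin.ext (by simp; omega)

theorem sumE_cases {a b n : ℕ} (h : a + b = n) (x : Fin n) :
    (∃ i, x = sumE h (Sum.inl i)) ∨ ∃ j, x = sumE h (Sum.inr j) := by
  obtain ⟨y, rfl⟩ := (sumE h).surjective x
  rcases y with i | j
  · exact Or.inl ⟨i, rfl⟩
  · exact Or.inr ⟨j, rfl⟩

open Classical in
noncomputable def cnt {α : Type} [Fintype α] (P : α → Prop) : ℕ := ∑ x, if P x then 1 else 0

section

variable {α β : Type} [Fintype α] [Fintype β]

theorem cnt_congr {P Q : α → Prop} (h : ∀ x, P x ↔ Q x) : cnt P = cnt Q := by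
  rw [funext fun x => propext (h x)]

theorem cnt_equiv (e : α ≃ β) (P : β → Prop) : cnt (fun x => P (e x)) = cnt P := by
  classical
  unfold cnt
  exact Fintype.sum_equiv e _ _ (fun _ => rfl)

theorem cnt_sum (P : α ⊕ β → Prop) :
    cnt P = cnt (fun x => P (Sum.inl x)) + cnt (fun x => P (Sum.inr x)) := by
  unfold cnt
  rw [Fintype.sum_sum_type]

theorem cnt_sumE {a b n : ℕ} (h : a + b = n) (P : Fin n → Prop) :
    cnt P = cnt (fun x => P (sumE h (Sum.inl x))) + cnt (fun x => P (sumE h (Sum.inr x))) := by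
  rw [← cnt_equiv (sumE h), cnt_sum]

theorem cnt_mono {P Q : α → Prop} (h : ∀ x, P x → Q x) : cnt P ≤ cnt Q := by
  unfold cnt
  refine Finset.sum_le_sum fun x _ => ?_
  by_cases hp : P x
  · simp [hp, h x hp]
  · simp [hp]

theorem cnt_true {P : α → Prop} (h : ∀ x, P x) : cnt P = Fintype.card α := by
  unfold cnt
  simp [h]

theorem cnt_false {P : α → Prop} (h : ∀ x, ¬ P x) : cnt P = 0 := by
  unfold cnt
  simp [h]

theorem cnt_le_card (P : α → Prop) : cnt P ≤ Fintype.card α := by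
  rw [← cnt_true (P := fun _ : α => True) (fun _ => trivial)]
  exact cnt_mono fun _ _ => trivial

theorem cnt_le_add {P Q R : α → Prop} (h : ∀ x, P x → Q x ∨ R x) : cnt P ≤ cnt Q + cnt R := by
  unfold cnt
  rw [← Finset.sum_add_distrib]
  refine Finset.sum_le_sum fun x _ => ?_
  by_cases hp : P x
  · rcases h x hp with h | h <;> simp [hp, h]
  · simp [hp]

theorem cnt_add_not (P Q : α → Prop) :
    cnt P = cnt (fun x => P x ∧ Q x) + cnt (fun x => P x ∧ ¬ Q x) := by
  unfold cnt
  rw [← Finset.sum_add_distrib]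
  refine Finset.sum_congr rfl fun x _ => ?_
  by_cases hp : P x <;> by_cases hq : Q x <;> simp [hp, hq]

theorem cnt_le_sum {P : α → Prop} {Q : β → α → Prop} (h : ∀ x, P x → ∃ b, Q b x) :
    cnt P ≤ ∑ b, cnt (Q b) := by
  classical
  unfold cnt
  rw [Finset.sum_comm]
  refine Finset.sum_le_sum fun x _ => ?_
  by_cases hp : P x
  · obtain ⟨b, hb⟩ := h x hp
    refine le_trans ?_ (Finset.single_le_sum (f := fun b => if Q b x then 1 else 0)
      (fun _ _ => Nat.zero_le _) (mem_univ b))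
    simp [hp, hb]
  · simp [hp]

theorem cnt_eq_card (P : α → Prop) : cnt P = Nat.card {x // P x} := by
  classical
  unfold cnt
  rw [Nat.card_eq_fintype_card, Fintype.card_subtype, Finset.card_filter]

theorem cnt_pos {P : α → Prop} : 0 < cnt P ↔ ∃ x, P x := by
  rw [cnt_eq_card, Nat.card_pos_iff]
  simp only [nonempty_subtype, and_iff_left_iff_imp]
  intro _
  infer_instance

open Classical in
theorem cnt_fiber (f : α → β) (Q : β → Prop) :
    cnt (fun x => Q (f x)) = ∑ y, if Q y then cnt (fun x => f x = y) else 0 := by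
  unfold cnt
  have : ∀ y, (if Q y then ∑ x, if f x = y then 1 else 0 else 0) =
      ∑ x, if f x = y then (if Q (f x) then 1 else 0) else 0 := by
    intro y
    split_ifs with hy
    · refine Finset.sum_congr rfl fun x _ => ?_
      by_cases hx : f x = y <;> simp [hx, hy]
    · symm
      refine Finset.sum_eq_zero fun x _ => ?_
      by_cases hx : f x = y <;> simp [hx, hy]
  simp_rw [this]
  rw [Finset.sum_comm]
  simp

theorem sum_cnt_fiber (f : α → β) : ∑ y, cnt (fun x => f x = y) = Fintype.card α := by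
  have := cnt_fiber f (fun _ => True)
  rw [cnt_true (fun _ => trivial)] at this
  simpa using this.symm

theorem cnt_le_of_injOn {P : α → Prop} {Q : β → Prop} (f : α → β) (hf : ∀ x, P x → Q (f x))
    (hinj : ∀ x y, P x → P y → f x = f y → x = y) : cnt P ≤ cnt Q := by
  rw [cnt_eq_card, cnt_eq_card]
  refine Nat.card_le_card_of_injective (fun x => ⟨f x.1, hf _ x.2⟩) ?_
  intro x y hxy
  exact Subtype.ext (hinj _ _ x.2 y.2 (congrArg Subtype.val hxy))

theorem abs_cnt_sub_le {γ : Type} (f g : α → γ) (Q : γ → Prop) :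
    |(cnt (fun x => Q (f x)) : ℝ) - cnt (fun x => Q (g x))| ≤ cnt (fun x => f x ≠ g x) := by
  have h1 : cnt (fun x => Q (f x)) ≤ cnt (fun x => Q (g x)) + cnt (fun x => f x ≠ g x) :=
    cnt_le_add fun x hx => by
      by_cases h : f x = g x
      · exact Or.inl (h ▸ hx)
      · exact Or.inr h
  have h2 : cnt (fun x => Q (g x)) ≤ cnt (fun x => Q (f x)) + cnt (fun x => f x ≠ g x) :=
    cnt_le_add fun x hx => by
      by_cases h : f x = g x
      · exact Or.inl (h ▸ hx)
      · exact Or.inr h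
  have h1' : (cnt (fun x => Q (f x)) : ℝ) ≤ cnt (fun x => Q (g x)) + cnt (fun x => f x ≠ g x) := by
    exact_mod_cast h1
  have h2' : (cnt (fun x => Q (g x)) : ℝ) ≤ cnt (fun x => Q (f x)) + cnt (fun x => f x ≠ g x) := by
    exact_mod_cast h2
  rw [abs_le]
  constructor <;> linarith

end

end Pool.Agent.Lib.MP_098da0_al
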