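import Pool.Agent.Lib.MP_098da0_al.HSPolar
import Pool.Agent.Lib.MP_098da0_al.Abstract
import Pool.Agent.Lib.MP_098da0_al.Count

namespace Pool.Agent.Lib.MP_098da0_al

open Finset Matrix Filter Asymptotics
open scoped ComplexOrder

abbrev Mat (n : ℕ) : Type := Matrix (Fin n) (Fin n) ℂ

abbrev Uni (n : ℕ) : Type := unitaryGroup (Fin n) ℂ

section Block

variable {a b n : ℕ} (h : a + b = n)

def bl (X : Mat a) (Y : Mat b) : Mat n :=
  (fromBlocks X 0 0 Y).submatrix (sumE h).symm (sumE h).symm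

@[simp] theorem bl_11 (X : Mat a) (Y : Mat b) (i j : Fin a) :
    bl h X Y (sumE h (Sum.inl i)) (sumE h (Sum.inl j)) = X i j := by simp [bl]

@[simp] theorem bl_12 (X : Mat a) (Y : Mat b) (i : Fin a) (j : Fin b) :
    bl h X Y (sumE h (Sum.inl i)) (sumE h (Sum.inr j)) = 0 := by simp [bl]

@[simp] theorem bl_21 (X : Mat a) (Y : Mat b) (i : Fin b) (j : Fin a) :
    bl h X Y (sumE h (Sum.inr i)) (sumE h (Sum.inl j)) = 0 := by simp [bl]

@[simp] theorem bl_22 (X : Mat a) (Y : Mat b) (i j : Fin b) :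
    bl h X Y (sumE h (Sum.inr i)) (sumE h (Sum.inr j)) = Y i j := by simp [bl]

theorem bl_mul (X X' : Mat a) (Y Y' : Mat b) :
    bl h X Y * bl h X' Y' = bl h (X * X') (Y * Y') := by
  unfold bl
  rw [submatrix_mul_equiv, fromBlocks_multiply]
  simp

theorem bl_one : bl h (1 : Mat a) (1 : Mat b) = 1 := by
  unfold bl
  rw [fromBlocks_one, submatrix_one_equiv]

theorem bl_conjTranspose (X : Mat a) (Y : Mat b) : (bl h X Y)ᴴ = bl h Xᴴ Yᴴ := by
  unfold bl
  rw [conjTranspose_submatrix, fromBlocks_conjTranspose]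
  simp

theorem bl_ext {M N : Mat n}
    (h11 : ∀ i j, M (sumE h (Sum.inl i)) (sumE h (Sum.inl j)) =
      N (sumE h (Sum.inl i)) (sumE h (Sum.inl j)))
    (h12 : ∀ i j, M (sumE h (Sum.inl i)) (sumE h (Sum.inr j)) =
      N (sumE h (Sum.inl i)) (sumE h (Sum.inr j)))
    (h21 : ∀ i j, M (sumE h (Sum.inr i)) (sumE h (Sum.inl j)) =
      N (sumE h (Sum.inr i)) (sumE h (Sum.inl j)))
    (h22 : ∀ i j, M (sumE h (Sum.inr i)) (sumE h (Sum.inr j)) =
      N (sumE h (Sum.inr i)) (sumE h (Sum.inr j))) : M = N := by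
  ext x y
  rcases sumE_cases h x with ⟨i, rfl⟩ | ⟨i, rfl⟩ <;>
    rcases sumE_cases h y with ⟨j, rfl⟩ | ⟨j, rfl⟩
  exacts [h11 i j, h12 i j, h21 i j, h22 i j]

theorem bl_sub (X X' : Mat a) (Y Y' : Mat b) :
    bl h X Y - bl h X' Y' = bl h (X - X') (Y - Y') := by
  apply bl_ext h <;> simp

theorem bl_add (X X' : Mat a) (Y Y' : Mat b) :
    bl h X Y + bl h X' Y' = bl h (X + X') (Y + Y') := by
  apply bl_ext h <;> simp

theorem bl_smul (c : ℂ) (X : Mat a) (Y : Mat b) : c • bl h X Y = bl h (c • X) (c • Y) := by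
  apply bl_ext h <;> simp

theorem bl_inj {X X' : Mat a} {Y Y' : Mat b} (e : bl h X Y = bl h X' Y') : X = X' ∧ Y = Y' := by
  constructor
  · ext i j
    rw [← bl_11 h X Y, e, bl_11]
  · ext i j
    rw [← bl_22 h X Y, e, bl_22]

theorem sum_sumE {M : Type} [AddCommMonoid M] (f : Fin n → M) :
    ∑ x, f x = ∑ i, f (sumE h (Sum.inl i)) + ∑ j, f (sumE h (Sum.inr j)) := by
  rw [← Equiv.sum_comp (sumE h), Fintype.sum_sum_type]

theorem trace_bl (X : Mat a) (Y : Mat b) : (bl h X Y).trace = X.trace + Y.trace := by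
  simp only [Matrix.trace, Matrix.diag]
  rw [sum_sumE h]
  simp

theorem fro2_split (M : Mat n) : fro2 M =
    fro2 (M.submatrix (fun i => sumE h (Sum.inl i)) (fun i => sumE h (Sum.inl i))) +
    fro2 (M.submatrix (fun i => sumE h (Sum.inl i)) (fun i => sumE h (Sum.inr i))) +
    (fro2 (M.submatrix (fun i => sumE h (Sum.inr i)) (fun i => sumE h (Sum.inl i))) +
    fro2 (M.submatrix (fun i => sumE h (Sum.inr i)) (fun i => sumE h (Sum.inr i)))) := by
  unfold fro2
  rw [sum_sumE h]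
  simp only [sum_sumE h (fun y => ‖M _ y‖ ^ 2), Finset.sum_add_distrib, submatrix_apply]

theorem fro2_bl (X : Mat a) (Y : Mat b) : fro2 (bl h X Y) = fro2 X + fro2 Y := by
  rw [fro2_split h]
  simp [fro2]

def mbs : Uni a × Uni b →* Uni n where
  toFun x := ⟨bl h x.1.1 x.2.1, mem_unitaryGroup_iff'.2 (by
    rw [star_eq_conjTranspose, bl_conjTranspose, bl_mul, uni_star_mul, uni_star_mul, bl_one])⟩
  map_one' := Subtype.ext (bl_one h)
  map_mul' _ _ := Subtype.ext (bl_mul h _ _ _ _).symm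

theorem mbs_coe (x : Uni a) (y : Uni b) : (mbs h (x, y)).1 = bl h x.1 y.1 := rfl

end Block

theorem bl_assoc {a b c m m' n : ℕ} (h1 : a + b = m) (h2 : m + c = n) (h3 : b + c = m')
    (h4 : a + m' = n) (x : Mat a) (y : Mat b) (z : Mat c) :
    bl h2 (bl h1 x y) z = bl h4 x (bl h3 y z) := by
  apply bl_ext h2
  · intro i j
    rw [bl_11]
    rcases sumE_cases h1 i with ⟨i, rfl⟩ | ⟨i, rfl⟩ <;>
      rcases sumE_cases h1 j with ⟨j, rfl⟩ | ⟨j, rfl⟩ <;>
      simp [sumE_assoc1 h1 h2 h4, sumE_assoc2 h1 h2 h3 h4]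
  · intro i j
    rw [bl_12]
    rcases sumE_cases h1 i with ⟨i, rfl⟩ | ⟨i, rfl⟩ <;>
      simp [sumE_assoc1 h1 h2 h4, sumE_assoc2 h1 h2 h3 h4, sumE_assoc3 h1 h2 h3 h4]
  · intro i j
    rw [bl_21]
    rcases sumE_cases h1 j with ⟨j, rfl⟩ | ⟨j, rfl⟩ <;>
      simp [sumE_assoc1 h1 h2 h4, sumE_assoc2 h1 h2 h3 h4, sumE_assoc3 h1 h2 h3 h4]
  · intro i j
    rw [bl_22]
    simp [sumE_assoc3 h1 h2 h3 h4]

theorem hs_cut {a r n : ℕ} (h : a + r = n) (σ : Uni n) :
    ∃ τ : Uni a, fro2 (σ.1 - (mbs h (τ, 1)).1) ≤ 16 * r := by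
  set A := σ.1.submatrix (fun i => sumE h (Sum.inl i)) (fun i => sumE h (Sum.inl i)) with hA
  set B := σ.1.submatrix (fun i => sumE h (Sum.inl i)) (fun i => sumE h (Sum.inr i)) with hB
  set C := σ.1.submatrix (fun i => sumE h (Sum.inr i)) (fun i => sumE h (Sum.inl i)) with hC
  set E := σ.1.submatrix (fun i => sumE h (Sum.inr i)) (fun i => sumE h (Sum.inr i)) with hE
  have e1 : Aᴴ * A + Cᴴ * C = 1 := by
    ext i j
    have := congrFun (congrFun (uni_star_mul σ) (sumE h (Sum.inl i))) (sumE h (Sum.inl j))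
    rw [Matrix.mul_apply, sum_sumE h] at this
    simpa [hA, hC, Matrix.mul_apply, one_apply] using this
  have e2 : Bᴴ * B + Eᴴ * E = 1 := by
    ext i j
    have := congrFun (congrFun (uni_star_mul σ) (sumE h (Sum.inr i))) (sumE h (Sum.inr j))
    rw [Matrix.mul_apply, sum_sumE h] at this
    simpa [hB, hE, Matrix.mul_apply, one_apply] using this
  have e3 : C * Cᴴ + E * Eᴴ = 1 := by
    ext i j
    have := congrFun (congrFun (uni_mul_star σ) (sumE h (Sum.inr i))) (sumE h (Sum.inr j))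
    rw [Matrix.mul_apply, sum_sumE h] at this
    simpa [hC, hE, Matrix.mul_apply, one_apply] using this
  have f2 : fro2 B + fro2 E = r := by
    rw [fro2_eq_re_trace, fro2_eq_re_trace, ← Complex.add_re, ← trace_add, e2]
    simp
  have f3 : fro2 C + fro2 E = r := by
    rw [← fro2_conjTranspose C, ← fro2_conjTranspose E, fro2_eq_re_trace, fro2_eq_re_trace,
      ← Complex.add_re, ← trace_add, conjTranspose_conjTranspose, conjTranspose_conjTranspose, e3]
    simp
  have f4 : fro2 (Cᴴ * C) + fro2 (Eᴴ * C) = fro2 C := by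
    rw [fro2_eq_re_trace, fro2_eq_re_trace, fro2_eq_re_trace C, ← Complex.add_re, ← trace_add]
    congr 2
    calc (Cᴴ * C)ᴴ * (Cᴴ * C) + (Eᴴ * C)ᴴ * (Eᴴ * C) = Cᴴ * (C * Cᴴ + E * Eᴴ) * C := by
          simp [Matrix.mul_add, Matrix.add_mul, Matrix.mul_assoc]
      _ = _ := by rw [e3, Matrix.mul_one]
  have e4 : 1 - Aᴴ * A = Cᴴ * C := by rw [← e1, add_sub_cancel_left]
  have hE0 := fro2_nonneg E
  have hEC := fro2_nonneg (Eᴴ * C)
  have hτ : ∃ τ : Uni a, fro2 (τ.1 - A) ≤ 3 * r := by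
    rcases Nat.eq_zero_or_pos r with hr | hr
    · have hC0 : C = 0 := fro2_eq_zero (le_antisymm (by
        have : (r : ℝ) = 0 := by exact_mod_cast hr
        linarith) (fro2_nonneg _))
      rw [hC0, Matrix.mul_zero, add_zero] at e1
      exact ⟨⟨A, mem_unitaryGroup_iff'.2 e1⟩, by simp⟩
    · obtain ⟨W, -, hW⟩ := polar_approx (H := Empty) (A := Empty.elim) (B := Empty.elim)
        (T := A) (T₀ := 1) (fun x => x.elim) (fun x => x.elim) isUnit_one one_pos
      have : (1 : ℝ) ≤ r := by exact_mod_cast hr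
      rw [e4] at hW
      exact ⟨W, by linarith⟩
  obtain ⟨τ, hτ⟩ := hτ
  refine ⟨τ, ?_⟩
  rw [fro2_split h]
  have g1 : (σ.1 - (mbs h (τ, 1)).1).submatrix (fun i => sumE h (Sum.inl i))
      (fun i => sumE h (Sum.inl i)) = A - τ.1 := by ext i j; simp [hA, mbs_coe]
  have g2 : (σ.1 - (mbs h (τ, 1)).1).submatrix (fun i => sumE h (Sum.inl i))
      (fun i => sumE h (Sum.inr i)) = B := by ext i j; simp [hB, mbs_coe]
  have g3 : (σ.1 - (mbs h (τ, 1)).1).submatrix (fun i => sumE h (Sum.inr i))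
      (fun i => sumE h (Sum.inl i)) = C := by ext i j; simp [hC, mbs_coe]
  have g4 : (σ.1 - (mbs h (τ, 1)).1).submatrix (fun i => sumE h (Sum.inr i))
      (fun i => sumE h (Sum.inr i)) = E - 1 := by ext i j; simp [hE, mbs_coe]
  rw [g1, g2, g3, g4, fro2_sub_comm A]
  have g5 := fro2_tri E 0 1
  rw [sub_zero, zero_sub, fro2_neg, fro2_of_isometry (U := (1 : Mat r)) (by simp),
    Fintype.card_fin] at g5
  have : (0 : ℝ) ≤ r := by positivity
  linarith

noncomputable def hsModel : Model where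
  C := Uni
  grp _ := inferInstance
  D x y := fro2 (x.1 - y.1)
  D_nonneg _ _ := fro2_nonneg _
  D_le {n} x y := by
    have := fro2_tri x.1 0 y.1
    rw [sub_zero, zero_sub, fro2_neg, fro2_of_isometry (uni_star_mul x),
      fro2_of_isometry (uni_star_mul y), Fintype.card_fin] at this
    linarith
  D_self x := by simp
  D_symm x y := fro2_sub_comm _ _
  D_mul_left z x y := by
    rw [← fro2_mul_left (uni_star_mul z) (x.1 - y.1), Matrix.mul_sub]
    rfl
  D_mul_right z x y := by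
    rw [← fro2_mul_right (uni_mul_star z) (x.1 - y.1), Matrix.sub_mul]
    rfl
  D_tri x y z := fro2_tri _ _ _
  bs := mbs
  D_bs h x x' y y' := by rw [mbs_coe, mbs_coe, bl_sub, fro2_bl]
  bs_assoc h1 h2 h3 h4 x y z := Subtype.ext (bl_assoc h1 h2 h3 h4 _ _ _)
  cut := hs_cut

theorem small_trace {k N : ℕ → ℕ} (hkN : ∀ n, k n ≤ N n) {x y : ∀ n, Uni (k n)}
    (h : Small N (fun n => fro2 ((x n).1 - (y n).1))) :
    Small N (fun n => ‖(x n).1.trace - (y n).1.trace‖) := by
  refine h.of_sq fun n => ?_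
  rw [← trace_sub]
  refine (norm_trace_sq_le _).trans (mul_le_mul_of_nonneg_left ?_ (fro2_nonneg _))
  rw [Fintype.card_fin]
  exact_mod_cast hkN n

noncomputable def toRep {H : Type} [Group H] {n : ℕ} (α : H →* Uni n) :
    Representation ℂ H (Fin n → ℂ) :=
  (Matrix.toLinAlgEquiv' (R := ℂ) (n := Fin n)).toAlgHom.toMonoidHom.comp
    ((unitaryGroup (Fin n) ℂ).subtype.comp α)

theorem toRep_char {H : Type} [Group H] {n : ℕ} (α : H →* Uni n) (h : H) :
    (toRep α).character h = (α h).1.trace :=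
  Matrix.trace_toLin'_eq _

theorem hs_integral {H : Type} [Group H] [Fintype H] {a b : ℕ} (α : H →* Uni a)
    (β : H →* Uni b) :
    ∃ z : ℤ, ∑ h, (α h).1.trace * (starRingEnd ℂ) (β h).1.trace = z := by
  have hc : (Nat.card H : ℂ) ≠ 0 := by exact_mod_cast Nat.card_pos.ne'
  let _ := invertibleOfNonzero hc
  have := Representation.card_inv_mul_sum_char_mul_char_eq_finrank (toRep β) (toRep α)
  rw [inv_mul_eq_iff_eq_mul₀ hc] at this
  refine ⟨(Nat.card H * Module.finrank ℂ ((toRep β).IntertwiningMap (toRep α)) : ℕ), ?_⟩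
  push_cast
  rw [← this]
  refine Finset.sum_congr rfl fun h _ => ?_
  rw [toRep_char, toRep_char, map_inv, uni_inv, trace_conjTranspose, Complex.star_def]

open Classical in
noncomputable def hsInv (H : Type) [Group H] [Fintype H] : HInv hsModel H where
  J := H
  fJ := inferInstance
  c α h := (α h).1.trace
  τ _ := 1
  c_one n h := by
    change (1 : Mat n).trace = _
    simp
  w h := if h = 1 then 1 else 0
  size {n} α := by
    simp only [ite_mul, one_mul, zero_mul, Finset.sum_ite_eq', mem_univ, if_true, map_one]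
    change _ = (1 : Mat n).trace
    simp
  integral α β := hs_integral α β
  cont k α β h j := small_trace (fun _ => le_rfl) (h j)
  rigid k α β hc h := by
    choose u hu1 hu2 using fun n => hs_rigid (α := α n) (β := β n) (congrFun (hc n))
    exact ⟨u, hu1, Small.of_le ((IsLittleO.fun_sum (s := univ) fun g _ => h g).const_mul_left 20)
      (fun n => hsModel.D_nonneg _ _) hu2⟩

theorem proj_split {n : ℕ} {p : Mat n} (hps : pᴴ = p) (hpp : p * p = p) :
    ∃ (a b : ℕ) (h : a + b = n) (u : Uni n), p = u.1 * bl h 1 0 * u.1ᴴ := by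
  classical
  obtain ⟨D⟩ := nonempty_diag hps
  have hμ : ∀ i, D.μ i = 1 ∨ D.μ i = 0 := by
    intro i
    have h1 : D.fc (fun x => x * x - x) = 0 := by
      rw [← D.fc_sub, ← D.fc_mul, D.fc_id, hpp, sub_self]
    have h2 : D.μ i * D.μ i - D.μ i = 0 := by exact_mod_cast D.eq_zero_of_fc h1 i
    by_contra hc
    push Not at hc
    exact hc.1 (mul_left_cancel₀ hc.2 (by linarith))
  let P : Fin n → Prop := fun i => D.μ i = 1
  let ea := (Fintype.equivFin {x // P x}).symm
  let eb := (Fintype.equivFin {x // ¬ P x}).symm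
  let E := (Equiv.sumCongr ea eb).trans (Equiv.sumCompl P)
  have h : Fintype.card {x // P x} + Fintype.card {x // ¬ P x} = n := by
    simpa using Fintype.card_congr E
  let σ : Fin n ≃ Fin n := (sumE h).symm.trans E
  have hu : D.V.submatrix id σ * (D.V.submatrix id σ)ᴴ = 1 := by
    rw [conjTranspose_submatrix, submatrix_mul_equiv, D.h2, submatrix_id_id]
  refine ⟨_, _, h, ⟨D.V.submatrix id σ, mem_unitaryGroup_iff.2 hu⟩, ?_⟩
  have e : bl h 1 0 = (diagonal (fun i => (D.μ i : ℂ))).submatrix σ σ := by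
    have e1 : ∀ i, D.μ (σ (sumE h (Sum.inl i))) = 1 := fun i => by simpa [σ, E] using (ea i).2
    have e2 : ∀ i, D.μ (σ (sumE h (Sum.inr i))) = 0 := fun i =>
      (hμ _).resolve_left (by simpa [σ, E] using (eb i).2)
    apply bl_ext h <;> intro i j <;> simp [diagonal_apply, e1, e2, one_apply]
  change p = D.V.submatrix id σ * bl h 1 0 * (D.V.submatrix id σ)ᴴ
  rw [e, conjTranspose_submatrix, submatrix_mul_equiv, submatrix_mul_equiv, submatrix_id_id,
    ← D.eq]

theorem block_of_commute {a b n : ℕ} (h : a + b = n) (x : Uni n)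
    (hx : x.1 * bl h 1 0 = bl h 1 0 * x.1) : ∃ y : Uni a × Uni b, x = mbs h y := by
  set X := x.1.submatrix (fun i => sumE h (Sum.inl i)) (fun i => sumE h (Sum.inl i)) with hX
  set Y := x.1.submatrix (fun i => sumE h (Sum.inr i)) (fun i => sumE h (Sum.inr i)) with hY
  have e : x.1 = bl h X Y := by
    apply bl_ext h
    · simp [hX]
    · intro i j
      have := congrFun (congrFun hx (sumE h (Sum.inl i))) (sumE h (Sum.inr j))
      rw [Matrix.mul_apply, Matrix.mul_apply, sum_sumE h, sum_sumE h] at this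
      simpa [one_apply] using this.symm
    · intro i j
      have := congrFun (congrFun hx (sumE h (Sum.inr i))) (sumE h (Sum.inl j))
      rw [Matrix.mul_apply, Matrix.mul_apply, sum_sumE h, sum_sumE h] at this
      simpa [one_apply] using this
    · simp [hY]
  have h1 := uni_star_mul x
  rw [e, bl_conjTranspose, bl_mul, ← bl_one h] at h1
  obtain ⟨h2, h3⟩ := bl_inj h h1
  exact ⟨(⟨X, mem_unitaryGroup_iff'.2 h2⟩, ⟨Y, mem_unitaryGroup_iff'.2 h3⟩), Subtype.ext e⟩

theorem mbs_injective {a b n : ℕ} (h : a + b = n) : Function.Injective (mbs h) := by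
  intro x y hxy
  obtain ⟨h1, h2⟩ := bl_inj h (congrArg Subtype.val hxy)
  exact Prod.ext (Subtype.ext h1) (Subtype.ext h2)

theorem hs_split {G : Type} [Group G] {n : ℕ} (ψ : G →* Uni n) {p : Mat n} (hps : pᴴ = p)
    (hpp : p * p = p) (hc : ∀ g, (ψ g).1 * p = p * (ψ g).1) :
    ∃ (a b : ℕ) (h : a + b = n) (u : Uni n) (π : G →* Uni a) (l : G →* Uni b),
      (∀ g, ψ g = u * mbs h (π g, l g) * u⁻¹) ∧ p = u.1 * bl h 1 0 * u.1ᴴ := by
  obtain ⟨a, b, h, u, hp⟩ := proj_split hps hpp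
  have e : bl h 1 0 = u.1ᴴ * p * u.1 := by
    rw [hp]
    calc bl h 1 0 = (u.1ᴴ * u.1) * bl h 1 0 * (u.1ᴴ * u.1) := by
          rw [uni_star_mul, Matrix.one_mul, Matrix.mul_one]
      _ = _ := by simp only [Matrix.mul_assoc]
  choose y hy using fun g => block_of_commute h (u⁻¹ * ψ g * u) (by
    change u.1ᴴ * (ψ g).1 * u.1 * bl h 1 0 = bl h 1 0 * (u.1ᴴ * (ψ g).1 * u.1)
    rw [e]
    calc u.1ᴴ * (ψ g).1 * u.1 * (u.1ᴴ * p * u.1)
        = u.1ᴴ * (ψ g).1 * (u.1 * u.1ᴴ) * p * u.1 := by simp only [Matrix.mul_assoc]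
      _ = u.1ᴴ * ((ψ g).1 * p) * u.1 := by
          rw [uni_mul_star]; simp only [Matrix.mul_assoc, Matrix.mul_one]
      _ = u.1ᴴ * p * (u.1 * u.1ᴴ) * (ψ g).1 * u.1 := by
          rw [uni_mul_star, hc]; simp only [Matrix.mul_assoc, Matrix.mul_one]
      _ = _ := by simp only [Matrix.mul_assoc])
  let Y : G →* Uni a × Uni b := MonoidHom.mk' y (fun g g' => mbs_injective h (by
    rw [map_mul, ← hy, ← hy, ← hy, map_mul]
    group))
  refine ⟨a, b, h, u, (MonoidHom.fst _ _).comp Y, (MonoidHom.snd _ _).comp Y, fun g => ?_, hp⟩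
  change ψ g = u * mbs h (y g) * u⁻¹
  rw [← hy]
  group

end Pool.Agent.Lib.MP_098da0_al
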