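import Pool.Agent.Lib.MP_098da0_al.Abstract
import Pool.Agent.Lib.MP_098da0_al.Count

namespace Pool.Agent.Lib.MP_098da0_al

open Finset Filter Asymptotics Equiv

def pbs {a b n : ℕ} (h : a + b = n) : Perm (Fin a) × Perm (Fin b) →* Perm (Fin n) :=
  (sumE h).permCongrHom.toMonoidHom.comp (Perm.sumCongrHom _ _)

@[simp] theorem pbs_inl {a b n : ℕ} (h : a + b = n) (x : Perm (Fin a)) (y : Perm (Fin b))
    (i : Fin a) : pbs h (x, y) (sumE h (Sum.inl i)) = sumE h (Sum.inl (x i)) := by
  simp [pbs, Perm.sumCongrHom]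

@[simp] theorem pbs_inr {a b n : ℕ} (h : a + b = n) (x : Perm (Fin a)) (y : Perm (Fin b))
    (i : Fin b) : pbs h (x, y) (sumE h (Sum.inr i)) = sumE h (Sum.inr (y i)) := by
  simp [pbs, Perm.sumCongrHom]

noncomputable def permModel : Model where
  C n := Perm (Fin n)
  grp _ := inferInstance
  D x y := cnt (fun i => x i ≠ y i)
  D_nonneg _ _ := by positivity
  D_le {n} x y := by
    have := cnt_le_card (fun i => x i ≠ y i)
    rw [Fintype.card_fin] at this
    have h : (cnt (fun i => x i ≠ y i) : ℝ) ≤ n := by exact_mod_cast this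
    have : (0 : ℝ) ≤ n := by positivity
    linarith
  D_self x := by rw [cnt_false (by simp)]; simp
  D_symm x y := by rw [cnt_congr (fun i => ne_comm)]
  D_mul_left z x y := by
    rw [cnt_congr (Q := fun i => x i ≠ y i) (fun i => by simp)]
  D_mul_right z x y := by
    rw [← cnt_equiv z (fun i => x i ≠ y i)]
    rfl
  D_tri x y z := by
    have h : cnt (fun i => x i ≠ z i) ≤ cnt (fun i => x i ≠ y i) + cnt (fun i => y i ≠ z i) :=
      cnt_le_add fun i hi => by
        by_contra hc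
        push Not at hc
        exact hi (hc.1.trans hc.2)
    have h' : (cnt (fun i => x i ≠ z i) : ℝ) ≤
        cnt (fun i => x i ≠ y i) + cnt (fun i => y i ≠ z i) := by exact_mod_cast h
    have h1 : (0 : ℝ) ≤ cnt (fun i => x i ≠ y i) := by positivity
    have h2 : (0 : ℝ) ≤ cnt (fun i => y i ≠ z i) := by positivity
    linarith
  bs := pbs
  D_bs h x x' y y' := by
    rw [cnt_sumE h]
    simp
  bs_assoc h1 h2 h3 h4 x y z := by
    ext i : 1
    rcases sumE_cases h2 i with ⟨i, rfl⟩ | ⟨i, rfl⟩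
    · rcases sumE_cases h1 i with ⟨i, rfl⟩ | ⟨i, rfl⟩
      · rw [pbs_inl, pbs_inl, sumE_assoc1 h1 h2 h4, sumE_assoc1 h1 h2 h4, pbs_inl]
      · rw [pbs_inl, pbs_inr, sumE_assoc2 h1 h2 h3 h4, sumE_assoc2 h1 h2 h3 h4, pbs_inr, pbs_inl]
    · rw [pbs_inr, sumE_assoc3 h1 h2 h3 h4, sumE_assoc3 h1 h2 h3 h4, pbs_inr, pbs_inr]
  cut {a r n} h σ := by
    let p : Fin a → Prop := fun i => ∃ i', σ (sumE h (Sum.inl i)) = sumE h (Sum.inl i')
    obtain ⟨τ, hτ⟩ := Perm.exists_extending_pair (fun i : {i // p i} => i.1)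
      (fun i => i.2.choose) Subtype.val_injective (fun i j hij => by
        have h1 := i.2.choose_spec
        have h2 := j.2.choose_spec
        have h3 : i.2.choose = j.2.choose := hij
        rw [h3, ← h2] at h1
        exact Subtype.ext (by simpa using h1))
    refine ⟨τ, ?_⟩
    rw [cnt_sumE h]
    have h1 : cnt (fun i => σ (sumE h (Sum.inl i)) ≠ pbs h (τ, 1) (sumE h (Sum.inl i))) ≤
        cnt (fun i => ¬ p i) := cnt_mono fun i hi hp => hi (by
          rw [pbs_inl, hτ ⟨i, hp⟩]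
          exact hp.choose_spec)
    have h2 : cnt (fun i => ¬ p i) ≤
        cnt (fun x : Fin n => ∃ j, x = sumE h (Sum.inr j)) :=
      cnt_le_of_injOn (fun i => σ (sumE h (Sum.inl i)))
        (fun i hi => (sumE_cases h _).resolve_left hi) (fun i j _ _ hij => by simpa using hij)
    have h3 : cnt (fun x : Fin n => ∃ j, x = sumE h (Sum.inr j)) ≤ r := by
      rw [cnt_sumE h, cnt_false (by simp), zero_add]
      simpa using cnt_le_card (α := Fin r) _
    have h4 := cnt_le_card
      (fun j => σ (sumE h (Sum.inr j)) ≠ pbs h (τ, 1) (sumE h (Sum.inr j)))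
    rw [Fintype.card_fin] at h4
    have h5 : cnt (fun i => σ (sumE h (Sum.inl i)) ≠ pbs h (τ, 1) (sumE h (Sum.inl i))) +
        cnt (fun j => σ (sumE h (Sum.inr j)) ≠ pbs h (τ, 1) (sumE h (Sum.inr j))) ≤ 16 * r := by
      omega
    exact_mod_cast h5

def stab {H X : Type} [Group H] (α : H →* Perm X) (x : X) : Set H := {h | α h x = x}

theorem cnt_stab_ne {H X : Type} [Group H] [Fintype H] [Fintype X] (α β : H →* Perm X) :
    cnt (fun x => stab α x ≠ stab β x) ≤ ∑ h, cnt (fun x => α h x ≠ β h x) :=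
  cnt_le_sum fun x hx => by
    by_contra hc
    push Not at hc
    exact hx (by ext h; simp [stab, hc h])

theorem abs_cnt_stab_le {H X : Type} [Group H] [Fintype H] [Fintype X] (α β : H →* Perm X)
    (Q : Set H → Prop) :
    |(cnt (fun x => Q (stab α x)) : ℝ) - cnt (fun x => Q (stab β x))| ≤
      ∑ h, (cnt (fun x => α h x ≠ β h x) : ℝ) :=
  (abs_cnt_sub_le (stab α) (stab β) Q).trans (by exact_mod_cast cnt_stab_ne α β)

section Rigid

variable {H X : Type} [Group H] [Fintype X] (α β : H →* Perm X)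

structure GoodRel (R : X → X → Prop) : Prop where
  inv : ∀ x y h, R x y → R (α h x) (β h y)
  fn : ∀ x y y', R x y → R x y' → y = y'
  inj : ∀ x x' y, R x y → R x' y → x = x'
  diag : ∀ x, (∀ h, α h x = β h x) → R x x

variable {α β}

omit [Fintype X] in
theorem GoodRel.stab_eq {R : X → X → Prop} (hR : GoodRel α β R) {x y : X} (h : R x y) :
    stab α x = stab β y := by
  ext g
  have := hR.inv x y g h
  constructor
  · intro hg
    rw [show α g x = x from hg] at this
    exact hR.fn _ _ _ this h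
  · intro hg
    rw [show β g y = y from hg] at this
    exact hR.inj _ _ _ this h

theorem GoodRel.extend (hc : ∀ B, cnt (fun x => stab α x = B) = cnt (fun x => stab β x = B))
    (n : ℕ) : ∀ R : X → X → Prop, GoodRel α β R → cnt (fun x => ¬ ∃ y, R x y) = n →
      ∃ R', GoodRel α β R' ∧ ∀ x, ∃ y, R' x y := by
  classical
  induction n using Nat.strong_induction_on with
  | _ n ih =>
    intro R hR hn
    by_cases htot : ∀ x, ∃ y, R x y
    · exact ⟨R, hR, htot⟩
    obtain ⟨x₀, hx₀⟩ := not_forall.1 htot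
    have h1 := cnt_add_not (fun x => stab α x = stab α x₀) (fun x => ∃ y, R x y)
    have h2 := cnt_add_not (fun y => stab β y = stab α x₀) (fun y => ∃ x, R x y)
    have h3 : 0 < cnt (fun x => stab α x = stab α x₀ ∧ ¬ ∃ y, R x y) :=
      cnt_pos.2 ⟨x₀, rfl, hx₀⟩
    have h4 : cnt (fun y => stab β y = stab α x₀ ∧ ∃ x, R x y) ≤
        cnt (fun x => stab α x = stab α x₀ ∧ ∃ y, R x y) := by
      refine cnt_le_of_injOn (fun y => if h : ∃ x, R x y then h.choose else y) ?_ ?_
      · rintro y ⟨hy, hy'⟩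
        simp only [dif_pos hy']
        exact ⟨(hR.stab_eq hy'.choose_spec).trans hy, y, hy'.choose_spec⟩
      · rintro y y' ⟨-, hy⟩ ⟨-, hy'⟩ h
        simp only [dif_pos hy, dif_pos hy'] at h
        exact hR.fn _ _ _ hy.choose_spec (h ▸ hy'.choose_spec)
    have h5 := hc (stab α x₀)
    obtain ⟨y₀, hy₀, hy₀'⟩ := (cnt_pos (P := fun y => stab β y = stab α x₀ ∧ ¬ ∃ x, R x y)).1
      (by omega)
    have hx : ∀ h y, ¬ R (α h x₀) y := fun h y hr => hx₀ ⟨β h⁻¹ y, by
      simpa [← Perm.mul_apply, ← map_mul] using hR.inv _ _ h⁻¹ hr⟩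
    have hy : ∀ h x, ¬ R x (β h y₀) := fun h x hr => hy₀' ⟨α h⁻¹ x, by
      simpa [← Perm.mul_apply, ← map_mul] using hR.inv _ _ h⁻¹ hr⟩
    have hiff : ∀ h h', α h x₀ = α h' x₀ ↔ β h y₀ = β h' y₀ := by
      intro h h'
      have e : h'⁻¹ * h ∈ stab β y₀ ↔ h'⁻¹ * h ∈ stab α x₀ := by rw [hy₀]
      simp only [stab, Set.mem_ofPred_eq, map_mul, map_inv, Perm.mul_apply,
        Perm.inv_eq_iff_eq] at e
      exact e.symm
    refine ih _ ?_ (fun x y => R x y ∨ ∃ h, x = α h x₀ ∧ y = β h y₀) ⟨?_, ?_, ?_, ?_⟩ rfl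
    · rw [← hn, cnt_add_not (fun x => ¬ ∃ y, R x y)
        (fun x => ¬ ∃ y, R x y ∨ ∃ h, x = α h x₀ ∧ y = β h y₀)]
      refine lt_of_le_of_lt (cnt_mono fun x hx' => ⟨fun ⟨y, hy⟩ => hx' ⟨y, Or.inl hy⟩, hx'⟩)
        (Nat.lt_add_of_pos_right (cnt_pos.2 ⟨x₀, hx₀, fun hh => hh ⟨y₀, Or.inr ⟨1, ?_, ?_⟩⟩⟩))
      · simp
      · simp
    · rintro x y g (h | ⟨h, rfl, rfl⟩)
      · exact Or.inl (hR.inv _ _ g h)
      · exact Or.inr ⟨g * h, by simp, by simp⟩
    · rintro x y y' (h | ⟨h, rfl, rfl⟩) (h' | ⟨h', e, rfl⟩)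
      · exact hR.fn _ _ _ h h'
      · exact absurd (e ▸ h) (hx _ _)
      · exact absurd h' (hx _ _)
      · exact (hiff _ _).1 e
    · rintro x x' y (h | ⟨h, rfl, rfl⟩) (h' | ⟨h', rfl, e⟩)
      · exact hR.inj _ _ _ h h'
      · exact absurd (e ▸ h) (hy _ _)
      · exact absurd h' (hy _ _)
      · exact (hiff _ _).2 e
    · exact fun x hx => Or.inl (hR.diag x hx)

theorem perm_rigid (hc : ∀ B, cnt (fun x => stab α x = B) = cnt (fun x => stab β x = B)) :
    ∃ u : Perm X, (∀ h, u * α h * u⁻¹ = β h) ∧ ∀ x, (∀ h, α h x = β h x) → u x = x := by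
  obtain ⟨R, hR, htot⟩ := GoodRel.extend hc _ (fun x y => x = y ∧ ∀ h, α h x = β h x)
    ⟨by
      rintro x _ g ⟨rfl, hx⟩
      refine ⟨hx g, fun h => ?_⟩
      rw [← Perm.mul_apply, ← map_mul, hx, hx, map_mul, Perm.mul_apply],
     by rintro x _ _ ⟨rfl, -⟩ ⟨rfl, -⟩; rfl,
     by rintro x x' _ ⟨rfl, -⟩ ⟨rfl, -⟩; rfl,
     fun x hx => ⟨rfl, hx⟩⟩ rfl
  choose f hf using htot
  have hinj : Function.Injective f := fun x x' h => hR.inj _ _ _ (hf x) (h ▸ hf x')
  refine ⟨Equiv.ofBijective f (Finite.injective_iff_bijective.1 hinj), fun h => ?_, fun x hx => ?_⟩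
  · rw [mul_inv_eq_iff_eq_mul]
    ext x
    exact hR.fn _ _ _ (hf (α h x)) (hR.inv _ _ h (hf x))
  · exact hR.fn _ _ _ (hf x) (hR.diag x hx)

theorem perm_rigid' [Fintype H]
    (hc : ∀ B, cnt (fun x => stab α x = B) = cnt (fun x => stab β x = B)) :
    ∃ u : Perm X, (∀ h, u * α h * u⁻¹ = β h) ∧
      (cnt (fun x => u x ≠ (1 : Perm X) x) : ℝ) ≤ ∑ g, (cnt (fun x => α g x ≠ β g x) : ℝ) := by
  obtain ⟨u, h1, h2⟩ := perm_rigid hc
  refine ⟨u, h1, ?_⟩
  have h3 : cnt (fun x => u x ≠ (1 : Perm X) x) ≤ ∑ g, cnt (fun x => α g x ≠ β g x) :=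
    cnt_le_sum fun x hx => by
      by_contra hc
      push Not at hc
      exact hx (h2 x hc)
  exact_mod_cast h3

end Rigid

open Classical in
noncomputable def permInv (H : Type) [Group H] [Finite H] : HInv permModel H where
  J := Set H
  fJ := Fintype.ofFinite _
  c α B := (cnt (fun x => stab α x = B) : ℂ)
  τ B := if B = Set.univ then 1 else 0
  c_one n B := by
    have : ∀ x : Fin n, stab (1 : H →* Perm (Fin n)) x = Set.univ := fun x => by
      ext h; simp [stab]
    split_ifs with hB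
    · rw [cnt_true (fun x => by rw [hB]; exact this x)]
      simp
    · rw [cnt_false (fun x hx => hB (hx.symm.trans (this x)))]
      simp
  w _ := 1
  size {n} α := by
    have := @sum_cnt_fiber (Fin n) (Set H) _ (Fintype.ofFinite _) (stab α)
    rw [Fintype.card_fin] at this
    simp only [one_mul]
    exact_mod_cast this.symm
  integral α β := by
    refine ⟨@Finset.sum (Set H) ℤ _ (@univ _ (Fintype.ofFinite _))
      (fun B => (cnt (fun x => stab α x = B) : ℤ) * (cnt (fun x => stab β x = B) : ℤ)), ?_⟩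
    push_cast
    simp only [map_natCast]
  cont k α β h B := by
    have := Fintype.ofFinite H
    refine Small.of_le (IsLittleO.fun_sum (s := univ) fun g _ => h g) (fun n => norm_nonneg _)
      fun n => ?_
    refine le_trans (le_of_eq ?_) (abs_cnt_stab_le (X := Fin (k n)) (α n) (β n) (fun S => S = B))
    rw [← Complex.ofReal_natCast, ← Complex.ofReal_natCast, ← Complex.ofReal_sub,
      Complex.norm_real, Real.norm_eq_abs]
  rigid k α β hc h := by
    have := Fintype.ofFinite H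
    choose u hu1 hu2 using fun n => perm_rigid' (X := Fin (k n)) (α := α n) (β := β n)
      (fun B => by exact_mod_cast congrFun (hc n) B)
    exact ⟨u, hu1, Small.of_le (IsLittleO.fun_sum (s := univ) fun g _ => h g)
      (fun n => permModel.D_nonneg _ _) hu2⟩

theorem perm_split {G : Type} [Group G] {n : ℕ} (ψ : G →* Perm (Fin n)) (P : Fin n → Prop)
    (hP : ∀ g x, P (ψ g x) ↔ P x) :
    ∃ (a b : ℕ) (h : a + b = n) (u : Perm (Fin n)) (π : G →* Perm (Fin a))
      (l : G →* Perm (Fin b)), (∀ g, ψ g = u * pbs h (π g, l g) * u⁻¹) ∧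
      (∀ i, P (u (sumE h (Sum.inl i)))) ∧ ∀ j, ¬ P (u (sumE h (Sum.inr j))) := by
  classical
  let ea := (Fintype.equivFin {x // P x}).symm
  let eb := (Fintype.equivFin {x // ¬ P x}).symm
  let E := (Equiv.sumCongr ea eb).trans (Equiv.sumCompl P)
  have h : Fintype.card {x // P x} + Fintype.card {x // ¬ P x} = n := by
    simpa using Fintype.card_congr E
  let π₀ : G →* Perm {x // P x} :=
    MonoidHom.mk' (fun g => (ψ g).subtypePerm (hP g)) (fun g g' => by ext x; simp)
  let l₀ : G →* Perm {x // ¬ P x} :=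
    MonoidHom.mk' (fun g => (ψ g).subtypePerm (fun x => not_congr (hP g x)))
      (fun g g' => by ext x; simp)
  refine ⟨_, _, h, (sumE h).symm.trans E, ea.symm.permCongrHom.toMonoidHom.comp π₀,
    eb.symm.permCongrHom.toMonoidHom.comp l₀, fun g => ?_, fun i => ?_, fun j => ?_⟩
  · rw [eq_mul_inv_iff_mul_eq]
    ext x : 1
    rcases sumE_cases h x with ⟨i, rfl⟩ | ⟨i, rfl⟩
    · simp [E, π₀]
    · simp [E, l₀]
  · simpa [E] using (ea i).2
  · simpa [E] using (eb j).2

section Types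

variable {G : Type} [Group G] (K : Subgroup G) [K.Normal]

def conjSetoid : Setoid (Set K) where
  r B B' := ∃ g : G, ∀ k : K, MulAut.conjNormal g k ∈ B' ↔ k ∈ B
  iseqv :=
    { refl := fun B => ⟨1, fun k => by simp⟩
      symm := fun ⟨g, hg⟩ => ⟨g⁻¹, fun k => by rw [← hg]; simp⟩
      trans := fun ⟨g, hg⟩ ⟨g', hg'⟩ => ⟨g' * g, fun k => by rw [← hg, ← hg']; simp⟩ }

variable {K}

theorem stab_conj {X : Type} (ψ : G →* Perm X) (g : G) (x : X) (k : K) :
    MulAut.conjNormal g k ∈ stab (ψ.comp K.subtype) (ψ g x) ↔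
      k ∈ stab (ψ.comp K.subtype) x := by
  simp [stab]

theorem cnt_stab_conj {X : Type} [Fintype X] (ψ : G →* Perm X) {B B' : Set K}
    (h : (conjSetoid K).r B B') :
    cnt (fun x => stab (ψ.comp K.subtype) x = B) =
      cnt (fun x => stab (ψ.comp K.subtype) x = B') := by
  obtain ⟨g, hg⟩ := h
  rw [← cnt_equiv (ψ g) (fun x => stab (ψ.comp K.subtype) x = B')]
  refine cnt_congr fun x => ⟨fun hx => ?_, fun hx => ?_⟩
  · ext k
    obtain ⟨k, rfl⟩ := (MulAut.conjNormal g).surjective k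
    rw [stab_conj, hx, hg]
  · ext k
    rw [← stab_conj ψ g, hx, hg]

omit [K.Normal] in
theorem stab_glue_inl {a b n : ℕ} (h : a + b = n) (u : Perm (Fin n)) (π : G →* Perm (Fin a))
    (l : G →* Perm (Fin b)) {ψ : G →* Perm (Fin n)}
    (hψ : ∀ g, ψ g = u * pbs h (π g, l g) * u⁻¹) (i : Fin a) :
    stab (ψ.comp K.subtype) (u (sumE h (Sum.inl i))) = stab (π.comp K.subtype) i := by
  ext k
  simp [stab, hψ]

omit [K.Normal] in
theorem stab_glue_inr {a b n : ℕ} (h : a + b = n) (u : Perm (Fin n)) (π : G →* Perm (Fin a))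
    (l : G →* Perm (Fin b)) {ψ : G →* Perm (Fin n)}
    (hψ : ∀ g, ψ g = u * pbs h (π g, l g) * u⁻¹) (i : Fin b) :
    stab (ψ.comp K.subtype) (u (sumE h (Sum.inr i))) = stab (l.comp K.subtype) i := by
  ext k
  simp [stab, hψ]

variable (K)

noncomputable def pm {n : ℕ} (ψ : G →* Perm (Fin n)) (t : Quotient (conjSetoid K)) : ℕ :=
  cnt (fun x => Quotient.mk (conjSetoid K) (stab (ψ.comp K.subtype) x) = t)

theorem pm_eq [Fintype (Set K)] {n : ℕ} (ψ : G →* Perm (Fin n)) (B : Set K) :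
    pm K ψ (Quotient.mk _ B) =
      cnt (fun B' : Set K => Quotient.mk (conjSetoid K) B' = Quotient.mk _ B) *
        cnt (fun x => stab (ψ.comp K.subtype) x = B) := by
  classical
  rw [pm, cnt_fiber (stab (ψ.comp K.subtype))
    (fun B' => Quotient.mk (conjSetoid K) B' = Quotient.mk _ B)]
  conv_rhs => rw [cnt, Finset.sum_mul]
  refine Finset.sum_congr rfl fun B' _ => ?_
  split_ifs with hB
  · rw [cnt_stab_conj ψ (Quotient.exact hB), one_mul]
  · simp

theorem pm_formula [Fintype (Set K)] [Fintype (Quotient (conjSetoid K))] {n : ℕ}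
    (ψ : G →* Perm (Fin n)) (Q : Set K → Prop) :
    (cnt (fun x => Q (stab (ψ.comp K.subtype) x)) : ℂ) =
      ∑ t, pm K ψ t * ((cnt (fun B : Set K => Quotient.mk (conjSetoid K) B = t ∧ Q B) : ℂ) /
        cnt (fun B : Set K => Quotient.mk (conjSetoid K) B = t)) := by
  classical
  rw [cnt_fiber (stab (ψ.comp K.subtype)) Q]
  have : ∀ t, pm K ψ t * ((cnt (fun B : Set K => Quotient.mk (conjSetoid K) B = t ∧ Q B) : ℂ) /
        cnt (fun B : Set K => Quotient.mk (conjSetoid K) B = t)) =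
      ∑ B : Set K, if Quotient.mk (conjSetoid K) B = t then
        ((if Q B then cnt (fun x => stab (ψ.comp K.subtype) x = B) else 0 : ℕ) : ℂ) else 0 := by
    intro t
    conv_lhs => rw [cnt]
    push_cast
    rw [Finset.sum_div, Finset.mul_sum]
    refine Finset.sum_congr rfl fun B _ => ?_
    by_cases h1 : Quotient.mk (conjSetoid K) B = t
    · by_cases h2 : Q B
      · subst h1
        have hpos : (cnt (fun B' : Set K =>
            Quotient.mk (conjSetoid K) B' = Quotient.mk _ B) : ℂ) ≠ 0 := by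
          exact_mod_cast (cnt_pos (P := fun B' : Set K =>
            Quotient.mk (conjSetoid K) B' = Quotient.mk _ B).2 ⟨B, rfl⟩).ne'
        rw [pm_eq]
        simp only [h2, and_self, if_true]
        push_cast
        field_simp
      · simp [h1, h2]
    · simp [h1]
  simp_rw [this]
  rw [Finset.sum_comm]
  simp

end Types

noncomputable def permTypes {G H : Type} [Group G] [Group H] [Finite H] (φ : H →* G)
    (K : Subgroup G) [K.Normal] [Finite K] (hK : ∀ x, φ x ∈ K) : TypeSys (permInv H) φ where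
  T := Quotient (conjSetoid K)
  fT := Fintype.ofFinite _
  m ψ t := pm K ψ t
  b t (B : Set H) :=
    letI := Fintype.ofFinite (Set K)
    (cnt (fun B' : Set K => Quotient.mk (conjSetoid K) B' = t ∧
      (fun x => (⟨φ x, hK x⟩ : K)) ⁻¹' B' = B) : ℂ) /
        cnt (fun B' : Set K => Quotient.mk (conjSetoid K) B' = t)
  m_glue h u π l t := by
    unfold pm
    rw [← cnt_equiv u, cnt_sumE h]
    congr 1
    · exact cnt_congr fun i => by rw [stab_glue_inl h u π l (fun _ => rfl)]
    · exact cnt_congr fun i => by rw [stab_glue_inr h u π l (fun _ => rfl)]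
  m_sum {n} ψ := by
    have := @sum_cnt_fiber (Fin n) (Quotient (conjSetoid K)) _ (Fintype.ofFinite _)
      (fun x => Quotient.mk (conjSetoid K) (stab (ψ.comp K.subtype) x))
    rwa [Fintype.card_fin] at this
  split ψ t := by
    obtain ⟨a, b, h, u, π, l, h1, h2, h3⟩ := perm_split ψ
      (fun x => Quotient.mk (conjSetoid K) (stab (ψ.comp K.subtype) x) = t) 
      (fun g x => Eq.congr_left (Quotient.sound (s := conjSetoid K) ⟨g, stab_conj ψ g x⟩).symm)
    refine ⟨a, b, h, u, π, l, MonoidHom.ext h1, ?_, ?_⟩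
    · unfold pm
      rw [cnt_true (fun i => by rw [← stab_glue_inl h u π l h1]; exact h2 i), Fintype.card_fin]
    · unfold pm
      rw [cnt_false (fun i => by rw [← stab_glue_inr h u π l h1]; exact h3 i)]
  cont k N _ ψ ψ' h t := by
    have := Fintype.ofFinite K
    exact Small.of_abs_le (IsLittleO.fun_sum (s := univ) fun (g : K) _ => h g) fun n =>
      abs_cnt_stab_le (X := Fin (k n)) ((ψ n).comp K.subtype) ((ψ' n).comp K.subtype)
        (fun S => Quotient.mk (conjSetoid K) S = t)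
  formula ψ (B : Set H) := by
    let _ := Fintype.ofFinite (Set K)
    let _ := Fintype.ofFinite (Quotient (conjSetoid K))
    exact pm_formula K ψ (fun B' => (fun x => (⟨φ x, hK x⟩ : K)) ⁻¹' B' = B)

end Pool.Agent.Lib.MP_098da0_al
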