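import Mathlib

namespace Pool.Agent.Lib.MP_098da0_al

open Finset

theorem conductor (S : AddSubmonoid ℕ) :
    ∃ B : ℕ, ∀ a ∈ S, ∀ b ∈ S, b + B ≤ a → a - b ∈ S := by
  obtain ⟨B, hB⟩ := Nat.exists_mem_closure_of_ge (S : Set ℕ)
  refine ⟨B, fun a ha b hb hab => ?_⟩
  have := hB (a - b) (by omega)
    (Nat.dvd_sub (Nat.setGcd_dvd_of_mem ha) (Nat.setGcd_dvd_of_mem hb))
  rwa [AddSubmonoid.closure_eq] at this

theorem hoffman_int {I J : Type} [Fintype I] [Fintype J] (M : I → J → ℤ) :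
    ∃ C : ℕ, ∀ q : I → ℕ, ∃ y : I → ℕ, y ≤ q ∧ (∀ j, ∑ s, (y s : ℤ) * M s j = 0) ∧
      (∑ s, (q s : ℤ)) - ∑ s, (y s : ℤ) ≤ C * ∑ j, |∑ s, (q s : ℤ) * M s j| := by
  classical
  let P : AddSubmonoid ((I → ℕ) × (J → ℕ) × (J → ℕ)) :=
    { carrier := {x | ∀ j, ∑ s, (x.1 s : ℤ) * M s j = x.2.1 j - x.2.2 j}
      zero_mem' := by intro j; simp
      add_mem' := by
        intro a b ha hb j
        have h1 := ha j
        have h2 := hb j
        simp only [Prod.fst_add, Prod.snd_add, Pi.add_apply, Nat.cast_add, add_mul,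
          Finset.sum_add_distrib]
        rw [h1, h2]
        ring }
  have hP : P.FG := by
    apply AddSubmonoid.fg_of_subtractive
    intro x hx y hxy j
    have h1 := hx j
    have h2 := hxy j
    simp only [Prod.fst_add, Prod.snd_add, Pi.add_apply, Nat.cast_add, add_mul,
      Finset.sum_add_distrib] at h2
    rw [h1] at h2
    linarith
  obtain ⟨T, hT⟩ := hP
  refine ⟨T.sup (fun x => ∑ s, x.1 s), fun q => ?_⟩
  set C : ℕ := T.sup (fun x => ∑ s, x.1 s) with hC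
  have key : ∀ x ∈ AddSubmonoid.closure (T : Set ((I → ℕ) × (J → ℕ) × (J → ℕ))),
      ∃ y : I → ℕ, y ≤ x.1 ∧ (∀ j, ∑ s, (y s : ℤ) * M s j = 0) ∧
        (∑ s, (x.1 s : ℤ)) - ∑ s, (y s : ℤ) ≤ C * ∑ j, ((x.2.1 j : ℤ) + x.2.2 j) := by
    intro x hx
    induction hx using AddSubmonoid.closure_induction with
    | mem x hx =>
      have hxP : x ∈ P := hT ▸ AddSubmonoid.subset_closure hx
      by_cases h0 : ∑ j, ((x.2.1 j : ℤ) + x.2.2 j) = 0
      · refine ⟨x.1, le_rfl, fun j => ?_, by rw [h0]; simp⟩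
        rw [Finset.sum_eq_zero_iff_of_nonneg (fun j _ => by positivity)] at h0
        have := h0 j (mem_univ j)
        rw [hxP j]
        omega
      · refine ⟨0, zero_le, fun j => by simp, ?_⟩
        have h1 : (1 : ℤ) ≤ ∑ j, ((x.2.1 j : ℤ) + x.2.2 j) := by
          have : (0 : ℤ) ≤ ∑ j, ((x.2.1 j : ℤ) + x.2.2 j) :=
            Finset.sum_nonneg (fun j _ => by positivity)
          omega
        have h2 : ∑ s, x.1 s ≤ C := Finset.le_sup (f := fun x => ∑ s, x.1 s) hx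
        have h3 : (∑ s, (x.1 s : ℤ)) ≤ C := by exact_mod_cast h2
        simp only [Pi.zero_apply, Nat.cast_zero, Finset.sum_const_zero, sub_zero]
        nlinarith [Int.natCast_nonneg C]
    | zero => exact ⟨0, le_rfl, fun j => by simp, by simp⟩
    | add a b _ _ iha ihb =>
      obtain ⟨y, hy, hy0, hyb⟩ := iha
      obtain ⟨z, hz, hz0, hzb⟩ := ihb
      refine ⟨y + z, add_le_add hy hz, fun j => ?_, ?_⟩
      · simp only [Pi.add_apply, Nat.cast_add, add_mul, Finset.sum_add_distrib, hy0 j, hz0 j,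
          add_zero]
      · simp only [Prod.fst_add, Prod.snd_add, Pi.add_apply, Nat.cast_add,
          Finset.sum_add_distrib] at hyb hzb ⊢
        linarith
  have hq : (q, (fun j => (∑ s, (q s : ℤ) * M s j).toNat),
      (fun j => (-∑ s, (q s : ℤ) * M s j).toNat)) ∈ P := by
    intro j
    simp only
    omega
  obtain ⟨y, hy, hy0, hyb⟩ := key _ (hT ▸ hq)
  refine ⟨y, hy, hy0, hyb.trans (le_of_eq ?_)⟩
  congr 1
  refine Finset.sum_congr rfl fun j _ => ?_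
  simp only
  rcases abs_cases (∑ s, (q s : ℤ) * M s j) with h | h <;> omega

theorem hoffman_gram {I J : Type} [Fintype I] [Fintype J] (v : I → J → ℂ)
    (hv : ∀ s s', ∃ z : ℤ, ∑ j, v s j * (starRingEnd ℂ) (v s' j) = z) :
    ∃ C : ℝ, 0 ≤ C ∧ ∀ q : I → ℕ, ∃ y : I → ℕ, y ≤ q ∧ (∀ j, ∑ s, (y s : ℂ) * v s j = 0) ∧
      (∑ s, (q s : ℝ)) - ∑ s, (y s : ℝ) ≤ C * ∑ j, ‖∑ s, (q s : ℂ) * v s j‖ := by
  choose M hM using hv
  obtain ⟨C, hC⟩ := hoffman_int M
  have hpair : ∀ (q : I → ℕ) (s' : I), ((∑ s, (q s : ℤ) * M s s' : ℤ) : ℂ) =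
      ∑ j, (∑ s, (q s : ℂ) * v s j) * (starRingEnd ℂ) (v s' j) := by
    intro q s'
    push_cast
    simp_rw [← hM, Finset.mul_sum, Finset.sum_mul]
    rw [Finset.sum_comm]
    refine Finset.sum_congr rfl fun j _ => Finset.sum_congr rfl fun s _ => by ring
  refine ⟨C * ∑ s', ∑ j, ‖v s' j‖, by positivity, fun q => ?_⟩
  obtain ⟨y, hy, hy0, hyb⟩ := hC q
  refine ⟨y, hy, ?_, ?_⟩
  · have h1 : ∑ j, (∑ s, (y s : ℂ) * v s j) * (starRingEnd ℂ) (∑ s, (y s : ℂ) * v s j) = 0 := by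
      have : ∀ s', ∑ j, (∑ s, (y s : ℂ) * v s j) * (starRingEnd ℂ) (v s' j) = 0 := by
        intro s'
        rw [← hpair, hy0 s']
        simp
      calc ∑ j, (∑ s, (y s : ℂ) * v s j) * (starRingEnd ℂ) (∑ s, (y s : ℂ) * v s j)
          = ∑ s', (y s' : ℂ) *
              ∑ j, (∑ s, (y s : ℂ) * v s j) * (starRingEnd ℂ) (v s' j) := by
            simp_rw [map_sum, map_mul, Complex.conj_natCast]
            simp_rw [Finset.mul_sum (s := univ) (f := fun s' => (y s' : ℂ) * _)]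
            rw [Finset.sum_comm]
            refine Finset.sum_congr rfl fun s' _ => ?_
            rw [Finset.mul_sum]
            refine Finset.sum_congr rfl fun j _ => by ring
        _ = 0 := by simp [this]
    simp_rw [Complex.mul_conj] at h1
    have h2 : ∑ j, Complex.normSq (∑ s, (y s : ℂ) * v s j) = 0 := by exact_mod_cast h1
    rw [Finset.sum_eq_zero_iff_of_nonneg (fun j _ => Complex.normSq_nonneg _)] at h2
    intro j
    exact Complex.normSq_eq_zero.1 (h2 j (mem_univ j))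
  · have h1 : (∑ s, (q s : ℝ)) - ∑ s, (y s : ℝ) ≤
        C * ∑ s', ((|∑ s, (q s : ℤ) * M s s'| : ℤ) : ℝ) := by exact_mod_cast hyb
    refine h1.trans ?_
    rw [mul_assoc]
    refine mul_le_mul_of_nonneg_left ?_ (by positivity)
    rw [Finset.sum_mul]
    refine Finset.sum_le_sum fun s' _ => ?_
    have h2 : ((|∑ s, (q s : ℤ) * M s s'| : ℤ) : ℝ) =
        ‖((∑ s, (q s : ℤ) * M s s' : ℤ) : ℂ)‖ := by
      rw [Complex.norm_intCast, Int.cast_abs]
    rw [h2, hpair]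
    refine (norm_sum_le _ _).trans ?_
    rw [Finset.mul_sum]
    refine Finset.sum_le_sum fun j _ => ?_
    rw [norm_mul, Complex.norm_conj, mul_comm]
    refine mul_le_mul_of_nonneg_right ?_ (norm_nonneg _)
    exact Finset.single_le_sum (f := fun j => ‖v s' j‖) (fun j _ => norm_nonneg _) (mem_univ j)

theorem hoffman_monoid {I J : Type} [Fintype I] [Fintype J] (S : I → AddSubmonoid ℕ)
    (w : I → J → ℂ)
    (hw : ∀ s s', ∀ a ∈ S s, ∀ a' ∈ S s',
      ∃ z : ℤ, ∑ j, ((a : ℂ) * w s j) * (starRingEnd ℂ) ((a' : ℂ) * w s' j) = z) :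
    ∃ C : ℝ, 0 ≤ C ∧ ∀ x : I → ℕ, (∀ s, x s ∈ S s) → ∃ y : I → ℕ, y ≤ x ∧ (∀ s, y s ∈ S s) ∧
      (∀ j, ∑ s, (y s : ℂ) * w s j = 0) ∧
      (∑ s, (x s : ℝ)) - ∑ s, (y s : ℝ) ≤ C * ∑ j, ‖∑ s, (x s : ℂ) * w s j‖ := by
  classical
  choose T hT using fun s => Nat.addSubmonoid_fg (S s)
  have hTS : ∀ s, ∀ a ∈ T s, a ∈ S s := fun s a ha => hT s ▸ AddSubmonoid.subset_closure ha
  obtain ⟨C, hC0, hC⟩ := hoffman_gram (I := Σ s, T s) (fun p j => (p.2.1 : ℂ) * w p.1 j)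
    (fun p p' => hw _ _ _ (hTS _ _ p.2.2) _ (hTS _ _ p'.2.2))
  set A : ℝ := ∑ p : (Σ s, T s), (p.2.1 : ℝ) with hA
  refine ⟨A * C, by positivity, fun x hx => ?_⟩
  have hx' : ∀ s, ∃ f : T s → ℕ, ∑ a, f a * a.1 = x s := by
    intro s
    have := hx s
    rw [← hT s, AddSubmonoid.mem_closure_finset] at this
    obtain ⟨f, -, hf⟩ := this
    refine ⟨fun a => f a.1, ?_⟩
    rw [← hf, ← Finset.sum_coe_sort (T s)]
    simp
  choose f hf using hx'
  obtain ⟨y, hy, hy0, hyb⟩ := hC (fun p => f p.1 p.2)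
  have hsum : ∀ (g : (Σ s, T s) → ℕ) (j : J),
      ∑ s, ((∑ a : T s, g ⟨s, a⟩ * a.1 : ℕ) : ℂ) * w s j =
        ∑ p : (Σ s, T s), (g p : ℂ) * ((p.2.1 : ℂ) * w p.1 j) := by
    intro g j
    rw [Fintype.sum_sigma]
    refine Finset.sum_congr rfl fun s _ => ?_
    push_cast
    rw [Finset.sum_mul]
    refine Finset.sum_congr rfl fun a _ => by ring
  refine ⟨fun s => ∑ a : T s, y ⟨s, a⟩ * a.1, fun s => ?_, fun s => ?_, fun j => ?_, ?_⟩
  · rw [← hf s]
    exact Finset.sum_le_sum fun a _ => Nat.mul_le_mul_right _ (hy ⟨s, a⟩)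
  · refine sum_mem fun a _ => ?_
    rw [← smul_eq_mul]
    exact nsmul_mem (hTS s _ a.2) _
  · rw [hsum, hy0]
  · have h1 : ∀ j, ∑ s, (x s : ℂ) * w s j =
        ∑ p : (Σ s, T s), (f p.1 p.2 : ℂ) * ((p.2.1 : ℂ) * w p.1 j) := by
      intro j
      rw [← hsum (fun p => f p.1 p.2) j]
      simp only [hf]
    simp_rw [h1]
    have hA0 : 0 ≤ A := by positivity
    rw [mul_assoc]
    refine le_trans ?_ (mul_le_mul_of_nonneg_left hyb hA0)
    have h2 : (∑ s, (x s : ℝ)) = ∑ p : (Σ s, T s), (f p.1 p.2 : ℝ) * p.2.1 := by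
      rw [Fintype.sum_sigma]
      refine Finset.sum_congr rfl fun s _ => ?_
      rw [← hf s]
      push_cast
      rfl
    have h3 : (∑ s, ((∑ a : T s, y ⟨s, a⟩ * a.1 : ℕ) : ℝ)) =
        ∑ p : (Σ s, T s), (y p : ℝ) * p.2.1 := by
      rw [Fintype.sum_sigma]
      refine Finset.sum_congr rfl fun s _ => ?_
      push_cast
      rfl
    rw [h2, h3, ← Finset.sum_sub_distrib, ← Finset.sum_sub_distrib, Finset.mul_sum]
    refine Finset.sum_le_sum fun p _ => ?_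
    have h4 : (y p : ℝ) ≤ f p.1 p.2 := by exact_mod_cast hy p
    have h5 : (p.2.1 : ℝ) ≤ A :=
      Finset.single_le_sum (f := fun p : (Σ s, T s) => (p.2.1 : ℝ))
        (fun _ _ => by positivity) (mem_univ p)
    nlinarith

end Pool.Agent.Lib.MP_098da0_al
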