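import Pool.Agent.Lib.MP_098da0_al.Defs

namespace Pool.Agent.Lib.MP_098da0_al

section

variable {G : Type} [Group G] {U : Set G} (hU : ∀ u ∈ U, ∀ g : G, g * u * g⁻¹ ∈ U)

include hU in
theorem pull_out [DecidableEq U] (u : U) (l : List U) :
    ∀ c : ℕ, c ≤ l.count u → ∃ l' : List U, l'.length + c = l.length ∧
      (l.map Subtype.val).prod = (u : G) ^ c * (l'.map Subtype.val).prod := by
  induction l with
  | nil =>
    intro c hc
    obtain rfl : c = 0 := by simpa using hc
    exact ⟨[], by simp, by simp⟩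
  | cons v l ih =>
    intro c hc
    rcases c with _ | c
    · exact ⟨v :: l, by simp, by simp⟩
    by_cases hv : v = u
    · subst hv
      obtain ⟨l', h1, h2⟩ := ih c (by simpa using hc)
      refine ⟨l', by simp; omega, ?_⟩
      rw [List.map_cons, List.prod_cons, h2, pow_succ', mul_assoc]
    · obtain ⟨l', h1, h2⟩ := ih (c + 1) (by simpa [List.count_cons, hv] using hc)
      refine ⟨⟨((u : G) ^ (c + 1))⁻¹ * v * ((u : G) ^ (c + 1))⁻¹⁻¹, hU _ v.2 _⟩ :: l',
        by simp; omega, ?_⟩
      simp only [List.map_cons, List.prod_cons, h2]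
      group

include hU in
theorem short_word [Fintype U] [DecidableEq U] {m : ℕ} (hm : 0 < m) (hpow : ∀ u ∈ U, u ^ m = 1) (n : ℕ) :
    ∀ l : List U, l.length = n → ∃ l' : List U, l'.length ≤ Fintype.card U * m ∧
      (l.map Subtype.val).prod = (l'.map Subtype.val).prod := by
  induction n using Nat.strong_induction_on with
  | _ n ih =>
    intro l hl
    by_cases h : ∃ u : U, m ≤ @List.count U instBEqOfDecidableEq u l
    · obtain ⟨u, hu⟩ := h
      obtain ⟨l', h1, h2⟩ := pull_out hU u l m hu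
      obtain ⟨l'', h3, h4⟩ := ih l'.length (by omega) l' rfl
      exact ⟨l'', h3, by rw [h2, hpow _ u.2, one_mul, h4]⟩
    · push Not at h
      refine ⟨l, ?_, rfl⟩
      rw [← List.sum_toFinset_count_eq_length]
      calc ∑ a ∈ l.toFinset, @List.count U instBEqOfDecidableEq a l ≤ ∑ _a ∈ l.toFinset, m :=
            Finset.sum_le_sum fun a _ => (h a).le
        _ = l.toFinset.card * m := by simp
        _ ≤ Fintype.card U * m := Nat.mul_le_mul_right _ (Finset.card_le_univ _)

end

theorem dietzmann {G H : Type} [Group G] [Group H] [Finite H] (φ : H →* G)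
    (h : AlmostNormal φ.range) :
    ∃ K : Subgroup G, K.Normal ∧ Finite K ∧ ∀ x, φ x ∈ K := by
  classical
  let U : Set G := {u | ∃ g x, u = g * φ x * g⁻¹}
  have hU : ∀ u ∈ U, ∀ g : G, g * u * g⁻¹ ∈ U := by
    rintro _ ⟨g', x, rfl⟩ g
    exact ⟨g * g', x, by group⟩
  have hUinv : ∀ u ∈ U, u⁻¹ ∈ U := by
    rintro _ ⟨g', x, rfl⟩
    exact ⟨g', x⁻¹, by rw [map_inv]; group⟩
  have hfin : U.Finite := by
    refine (Set.Finite.biUnion h (t := fun K : Subgroup G => (K : Set G)) ?_).subset ?_
    · rintro _ ⟨g, rfl⟩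
      refine (Set.finite_range (fun x : H => g * φ x * g⁻¹)).subset ?_
      rintro _ ⟨_, ⟨x, rfl⟩, rfl⟩
      exact ⟨x, rfl⟩
    · rintro _ ⟨g, x, rfl⟩
      exact Set.mem_biUnion (Set.mem_range_self g) ⟨φ x, ⟨x, rfl⟩, rfl⟩
  have hpow : ∀ u ∈ U, u ^ Nat.card H = 1 := by
    rintro _ ⟨g, x, rfl⟩
    rw [conj_pow, ← map_pow, pow_card_eq_one', map_one]
    group
  have := hfin.fintype
  refine ⟨Subgroup.closure U, ⟨fun x hx g => ?_⟩, ?_,
    fun x => Subgroup.subset_closure ⟨1, x, by simp⟩⟩
  · induction hx using Subgroup.closure_induction with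
    | mem x hx => exact Subgroup.subset_closure (hU x hx g)
    | one => simp
    | mul x y _ _ hx hy =>
      have : g * (x * y) * g⁻¹ = g * x * g⁻¹ * (g * y * g⁻¹) := by group
      rw [this]
      exact mul_mem hx hy
    | inv x _ hx =>
      have : g * x⁻¹ * g⁻¹ = (g * x * g⁻¹)⁻¹ := by group
      rw [this]
      exact inv_mem hx
  · have hl : ∀ x ∈ Subgroup.closure U, ∃ l : List U, (l.map Subtype.val).prod = x := by
      intro x hx
      induction hx using Subgroup.closure_induction'' with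
      | mem x hx => exact ⟨[⟨x, hx⟩], by simp⟩
      | inv_mem x hx => exact ⟨[⟨x⁻¹, hUinv x hx⟩], by simp⟩
      | one => exact ⟨[], by simp⟩
      | mul x y _ _ hx hy =>
        obtain ⟨l, rfl⟩ := hx
        obtain ⟨l', rfl⟩ := hy
        exact ⟨l ++ l', by simp⟩
    refine Set.Finite.subset ((List.finite_length_le U (Fintype.card U * Nat.card H)).image
      (fun l => (l.map Subtype.val).prod)) ?_
    intro x hx
    obtain ⟨l, rfl⟩ := hl x hx
    obtain ⟨l', h1, h2⟩ := short_word hU Nat.card_pos hpow _ l rfl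
    exact ⟨l', h1, h2.symm⟩

end Pool.Agent.Lib.MP_098da0_al
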