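import Pool.Agent.Lib.MP_098da0_al.PermModel
import Pool.Agent.Lib.MP_098da0_al.Dietzmann

namespace Pool.Agent.Lib.MP_098da0_al

open Finset Filter Asymptotics Topology

theorem small_iff_tendsto {k : ℕ → ℕ} (hk : ∀ n, 0 < k n) (f : ℕ → ℝ) :
    Small k f ↔ Tendsto (fun n => f n / k n) atTop (𝓝 0) :=
  isLittleO_iff_tendsto fun n hn => absurd (by exact_mod_cast hn) (hk n).ne'

theorem isStable_iff (M : Model) (d : ∀ n, M.C n → M.C n → ℝ)
    (hd : ∀ (k : ℕ → ℕ), (∀ n, 0 < k n) → ∀ x y : ∀ n, M.C (k n),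
      Tendsto (fun n => d (k n) (x n) (y n)) atTop (𝓝 0) ↔
        Small k (fun n => M.D (x n) (y n)))
    (G : Type) [Group G] : IsStable M.C d G ↔ M.Stable G := by
  constructor
  · intro h k φ hφ
    let s : ℕ → Σ m : ℕ, (G → M.C m) := fun n =>
      if k n = 0 then ⟨1, fun _ => 1⟩ else ⟨k n, φ n⟩
    have hs0 : ∀ n, k n = 0 → s n = ⟨1, fun _ => 1⟩ := fun n hn => if_pos hn
    have hs1 : ∀ n, k n ≠ 0 → s n = ⟨k n, φ n⟩ := fun n hn => if_neg hn
    have hpos : ∀ n, 0 < (s n).1 := fun n => by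
      by_cases hn : k n = 0
      · rw [hs0 n hn]
        exact Nat.one_pos
      · rw [hs1 n hn]
        exact Nat.pos_of_ne_zero hn
    have hle : ∀ n, k n ≤ (s n).1 := fun n => by
      by_cases hn : k n = 0
      · rw [hn]
        exact Nat.zero_le _
      · rw [hs1 n hn]
    obtain ⟨ψ', hψ'⟩ := h (fun n => (s n).1) hpos (fun n => (s n).2) (fun a b => by
      rw [hd _ hpos]
      refine Small.of_le ((hφ a b).mono hle) (fun n => M.D_nonneg _ _) fun n => ?_
      by_cases hn : k n = 0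
      · rw [hs0 n hn]
        simp only [mul_one, M.D_self]
        exact M.D_nonneg _ _
      · rw [hs1 n hn])
    have key : ∀ n, ∃ ψ : G →* M.C (k n), ∀ a,
        M.D (φ n a) (ψ a) = if k n = 0 then 0 else M.D ((s n).2 a) (ψ' n a) := by
      intro n
      by_cases hn : k n = 0
      · refine ⟨1, fun a => ?_⟩
        rw [if_pos hn]
        refine le_antisymm ?_ (M.D_nonneg _ _)
        have := M.D_le (φ n a) ((1 : G →* M.C (k n)) a)
        have hk : (k n : ℝ) = 0 := by exact_mod_cast hn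
        rwa [hk, mul_zero] at this
      · have : ∀ (t : Σ m : ℕ, (G → M.C m)) (χ : G →* M.C t.1), t = ⟨k n, φ n⟩ →
            ∃ ψ : G →* M.C (k n), ∀ a, M.D (φ n a) (ψ a) = M.D (t.2 a) (χ a) := by
          rintro _ χ rfl
          exact ⟨χ, fun a => rfl⟩
        simpa only [if_neg hn] using this (s n) (ψ' n) (hs1 n hn)
    choose ψ hψ using key
    refine ⟨ψ, fun a => ?_⟩
    have h1 := (hd _ hpos _ _).1 (hψ' a)
    rw [Small, isLittleO_iff] at h1 ⊢
    intro c hc
    filter_upwards [h1 hc] with n hn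
    rw [hψ]
    split_ifs with h0
    · simp [h0]
    · have : (s n).1 = k n := by rw [hs1 n h0]
      rwa [show (((s n).1 : ℕ) : ℝ) = k n by exact_mod_cast this] at hn
  · intro h k hk φ hφ
    obtain ⟨ψ, hψ⟩ := h k φ fun a b => (hd k hk _ _).1 (hφ a b)
    exact ⟨ψ, fun a => (hd k hk _ _).2 (hψ a)⟩

theorem pStable_iff (G : Type) [Group G] : PStable G ↔ permModel.Stable G :=
  isStable_iff permModel hammingDist (fun k hk x y => by
    rw [small_iff_tendsto hk]
    simp only [hammingDist, ← cnt_eq_card]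
    rfl) G

theorem pStable_pushout {ι : Type} [Finite ι] [Nonempty ι] {H : Type} [Group H] [Finite H]
    {G : ι → Type} [∀ i, Group (G i)] (φ : ∀ i, H →* G i)
    (hφ : ∀ i, AlmostNormal (φ i).range) (hG : ∀ i, PStable (G i)) :
    PStable (Monoid.PushoutI φ) := by
  choose K hK1 hK2 hK3 using fun i => dietzmann (φ i) (hφ i)
  rw [pStable_iff]
  exact stable_pushout (permInv H) (fun i => permTypes (φ i) (K i) (hK3 i))
    (fun i => (pStable_iff _).1 (hG i))

end Pool.Agent.Lib.MP_098da0_al
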