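import Mathlib

namespace Pool.Agent.Lib.MP_098da0_al

open Filter Topology Matrix

/-- Normalized Hamming distance on the symmetric group of `Fin n`. -/
noncomputable def hammingDist (n : ℕ) (σ τ : Equiv.Perm (Fin n)) : ℝ :=
  (Nat.card {x : Fin n // σ x ≠ τ x} : ℝ) / n

/-- Normalized Hilbert-Schmidt distance on the unitary group `U(n)`. -/
noncomputable def hsDist (n : ℕ) (A B : Matrix.unitaryGroup (Fin n) ℂ) : ℝ :=
  √((Matrix.trace ((A.1 - B.1)ᴴ * (A.1 - B.1))).re / n)

/-- Stability of `G` with respect to the metric groups `(C n, d n)`, `n ≥ 1`: every asymptotic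
homomorphism is pointwise asymptotic to a sequence of homomorphisms into the same groups. -/
def IsStable (C : ℕ → Type) [∀ n, Group (C n)] (d : ∀ n, C n → C n → ℝ)
    (G : Type) [Group G] : Prop :=
  ∀ (k : ℕ → ℕ), (∀ n, 0 < k n) → ∀ (φ : ∀ n, G → C (k n)),
    (∀ a b : G, Tendsto (fun n => d (k n) (φ n a * φ n b) (φ n (a * b))) atTop (𝓝 0)) →
    ∃ ψ : ∀ n, G →* C (k n), ∀ a : G, Tendsto (fun n => d (k n) (φ n a) (ψ n a)) atTop (𝓝 0)

/-- Stability in permutations. -/
def PStable (G : Type) [Group G] : Prop :=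
  IsStable (fun n => Equiv.Perm (Fin n)) hammingDist G

/-- Hilbert-Schmidt stability. -/
def HSStable (G : Type) [Group G] : Prop :=
  IsStable (fun n => Matrix.unitaryGroup (Fin n) ℂ) hsDist G

/-- A subgroup is almost normal when it has only finitely many conjugates. -/
def AlmostNormal {G : Type} [Group G] (K : Subgroup G) : Prop :=
  (Set.range fun g : G => K.map (MulAut.conj g).toMonoidHom).Finite

end Pool.Agent.Lib.MP_098da0_al
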