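import Mathlib

namespace Pool.Agent.Lib.MP_098da0_al

open Finset Matrix
open scoped ComplexOrder

section Fro

variable {m n p : Type} [Fintype m] [Fintype n] [Fintype p]

noncomputable def fro2 (M : Matrix m n ℂ) : ℝ := ∑ i, ∑ j, ‖M i j‖ ^ 2

theorem fro2_nonneg (M : Matrix m n ℂ) : 0 ≤ fro2 M := by unfold fro2; positivity

theorem fro2_eq_trace (M : Matrix m n ℂ) : (fro2 M : ℂ) = (Mᴴ * M).trace := by
  unfold fro2
  rw [Finset.sum_comm]
  simp only [Matrix.trace, Matrix.diag, Matrix.mul_apply, conjTranspose_apply]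
  push_cast
  refine Finset.sum_congr rfl fun j _ => Finset.sum_congr rfl fun i _ => ?_
  rw [Complex.star_def, Complex.conj_mul']

theorem fro2_eq_re_trace (M : Matrix m n ℂ) : fro2 M = (Mᴴ * M).trace.re := by
  rw [← fro2_eq_trace, Complex.ofReal_re]

@[simp] theorem fro2_zero : fro2 (0 : Matrix m n ℂ) = 0 := by simp [fro2]

theorem fro2_neg (M : Matrix m n ℂ) : fro2 (-M) = fro2 M := by simp [fro2]

theorem fro2_sub_comm (M N : Matrix m n ℂ) : fro2 (M - N) = fro2 (N - M) := by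
  rw [← fro2_neg, neg_sub]

theorem fro2_conjTranspose (M : Matrix m n ℂ) : fro2 Mᴴ = fro2 M := by
  unfold fro2
  rw [Finset.sum_comm]
  simp

theorem fro2_smul (c : ℂ) (M : Matrix m n ℂ) : fro2 (c • M) = ‖c‖ ^ 2 * fro2 M := by
  simp [fro2, Finset.mul_sum, mul_pow]

theorem fro2_add_le (M N : Matrix m n ℂ) : fro2 (M + N) ≤ 2 * fro2 M + 2 * fro2 N := by
  unfold fro2
  simp only [Finset.mul_sum, ← Finset.sum_add_distrib]
  refine Finset.sum_le_sum fun i _ => Finset.sum_le_sum fun j _ => ?_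
  have h1 : ‖(M + N) i j‖ ≤ ‖M i j‖ + ‖N i j‖ := norm_add_le _ _
  have h2 : ‖(M + N) i j‖ ^ 2 ≤ (‖M i j‖ + ‖N i j‖) ^ 2 := by gcongr
  nlinarith [sq_nonneg (‖M i j‖ - ‖N i j‖)]

theorem fro2_tri (M N P : Matrix m n ℂ) : fro2 (M - P) ≤ 2 * fro2 (M - N) + 2 * fro2 (N - P) := by
  have := fro2_add_le (M - N) (N - P)
  rwa [sub_add_sub_cancel] at this

theorem fro2_sum_le {ι : Type} [Fintype ι] (M : ι → Matrix m n ℂ) :
    fro2 (∑ k, M k) ≤ Fintype.card ι * ∑ k, fro2 (M k) := by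
  unfold fro2
  rw [Finset.sum_comm (s := (univ : Finset ι)), Finset.mul_sum]
  refine Finset.sum_le_sum fun i _ => ?_
  rw [Finset.sum_comm (s := (univ : Finset ι)), Finset.mul_sum]
  refine Finset.sum_le_sum fun j _ => ?_
  rw [Matrix.sum_apply]
  have h1 : ‖∑ k, M k i j‖ ≤ ∑ k, ‖M k i j‖ := norm_sum_le _ _
  calc ‖∑ k, M k i j‖ ^ 2 ≤ (∑ k, ‖M k i j‖) ^ 2 := by gcongr
    _ ≤ _ := sq_sum_le_card_mul_sum_sq

theorem fro2_avg_le {ι : Type} [Fintype ι] [Nonempty ι] (M : ι → Matrix m n ℂ) {B : ℝ}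
    (h : ∀ k, fro2 (M k) ≤ B) : fro2 (((Fintype.card ι : ℂ))⁻¹ • ∑ k, M k) ≤ B := by
  rw [fro2_smul]
  have hc : (0 : ℝ) < Fintype.card ι := by exact_mod_cast Fintype.card_pos
  have h1 : ∑ k, fro2 (M k) ≤ Fintype.card ι * B := by
    calc ∑ k, fro2 (M k) ≤ ∑ _k : ι, B := Finset.sum_le_sum fun k _ => h k
      _ = _ := by simp
  have h2 := fro2_sum_le M
  rw [norm_inv, Complex.norm_natCast, inv_pow, inv_mul_le_iff₀ (by positivity)]
  nlinarith

theorem fro2_mul_left [DecidableEq m] {U : Matrix p m ℂ} (hU : Uᴴ * U = 1) (M : Matrix m n ℂ) :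
    fro2 (U * M) = fro2 M := by
  rw [fro2_eq_re_trace, fro2_eq_re_trace, conjTranspose_mul, Matrix.mul_assoc,
    ← Matrix.mul_assoc Uᴴ, hU, Matrix.one_mul]

theorem fro2_mul_right [DecidableEq n] {U : Matrix n p ℂ} (hU : U * Uᴴ = 1) (M : Matrix m n ℂ) :
    fro2 (M * U) = fro2 M := by
  rw [← fro2_conjTranspose, conjTranspose_mul, fro2_mul_left (by simpa using hU),
    fro2_conjTranspose]

theorem fro2_of_isometry [DecidableEq n] {U : Matrix m n ℂ} (hU : Uᴴ * U = 1) :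
    fro2 U = Fintype.card n := by
  rw [fro2_eq_re_trace, hU]
  simp

theorem fro2_eq_zero {M : Matrix m n ℂ} (h : fro2 M = 0) : M = 0 := by
  ext i j
  unfold fro2 at h
  rw [Finset.sum_eq_zero_iff_of_nonneg (fun _ _ => by positivity)] at h
  have h1 := h i (mem_univ i)
  rw [Finset.sum_eq_zero_iff_of_nonneg (fun _ _ => by positivity)] at h1
  simpa using h1 j (mem_univ j)

theorem norm_trace_sq_le (M : Matrix n n ℂ) : ‖M.trace‖ ^ 2 ≤ fro2 M * Fintype.card n := by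
  have h1 : ‖M.trace‖ ≤ ∑ i, ‖M i i‖ := norm_sum_le _ _
  have h2 : ∑ i, ‖M i i‖ ^ 2 ≤ fro2 M :=
    Finset.sum_le_sum fun i _ => Finset.single_le_sum (f := fun j => ‖M i j‖ ^ 2)
      (fun _ _ => by positivity) (mem_univ i)
  calc ‖M.trace‖ ^ 2 ≤ (∑ i, ‖M i i‖) ^ 2 := by gcongr
    _ ≤ Fintype.card n * ∑ i, ‖M i i‖ ^ 2 := sq_sum_le_card_mul_sum_sq
    _ ≤ fro2 M * Fintype.card n := by rw [mul_comm]; gcongr

theorem continuous_fro2 : Continuous (fro2 : Matrix m n ℂ → ℝ) := by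
  unfold fro2
  fun_prop

end Fro

section Diag

variable {n : Type} [Fintype n] [DecidableEq n]

structure Diag (Q : Matrix n n ℂ) where
  V : Matrix n n ℂ
  μ : n → ℝ
  h1 : Vᴴ * V = 1
  h2 : V * Vᴴ = 1
  eq : Q = V * diagonal (fun i => (μ i : ℂ)) * Vᴴ

theorem nonempty_diag {Q : Matrix n n ℂ} (hQ : Qᴴ = Q) : Nonempty (Diag Q) := by
  have hQ' : Q.IsHermitian := hQ
  exact ⟨⟨hQ'.eigenvectorUnitary, hQ'.eigenvalues, Unitary.coe_star_mul_self _,
    Unitary.coe_mul_star_self _, hQ'.spectral_theorem⟩⟩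

namespace Diag

variable {Q : Matrix n n ℂ} (D : Diag Q)

noncomputable def fc (f : ℝ → ℂ) : Matrix n n ℂ := D.V * diagonal (fun i => f (D.μ i)) * D.Vᴴ

theorem fc_congr {f g : ℝ → ℂ} (h : ∀ i, f (D.μ i) = g (D.μ i)) : D.fc f = D.fc g := by
  unfold fc
  rw [funext h]

theorem fc_id : D.fc (fun x => x) = Q := D.eq.symm

theorem fc_mul (f g : ℝ → ℂ) : D.fc f * D.fc g = D.fc (fun x => f x * g x) := by
  unfold fc
  rw [← diagonal_mul_diagonal]
  calc D.V * diagonal (fun i => f (D.μ i)) * D.Vᴴ * (D.V * diagonal (fun i => g (D.μ i)) * D.Vᴴ)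
      = D.V * diagonal (fun i => f (D.μ i)) * (D.Vᴴ * D.V) * diagonal (fun i => g (D.μ i)) *
          D.Vᴴ := by simp only [Matrix.mul_assoc]
    _ = _ := by rw [D.h1]; simp only [Matrix.mul_assoc, Matrix.mul_one]

theorem fc_mul_self (f : ℝ → ℂ) : D.fc f * Q = D.fc (fun x => f x * x) := by
  rw [← D.fc_mul, D.fc_id]

theorem self_mul_fc (f : ℝ → ℂ) : Q * D.fc f = D.fc (fun x => x * f x) := by
  rw [← D.fc_mul, D.fc_id]

theorem fc_const (c : ℂ) : D.fc (fun _ => c) = c • 1 := by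
  unfold fc
  rw [← smul_one_eq_diagonal, Matrix.mul_smul, Matrix.mul_one, Matrix.smul_mul, D.h2]

theorem fc_one : D.fc (fun _ => 1) = 1 := by rw [fc_const, one_smul]

theorem fc_zero : D.fc (fun _ => 0) = 0 := by rw [fc_const, zero_smul]

theorem fc_add (f g : ℝ → ℂ) : D.fc f + D.fc g = D.fc (fun x => f x + g x) := by
  unfold fc
  rw [← diagonal_add, Matrix.mul_add, Matrix.add_mul]

theorem fc_sub (f g : ℝ → ℂ) : D.fc f - D.fc g = D.fc (fun x => f x - g x) := by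
  unfold fc
  rw [← diagonal_sub, Matrix.mul_sub, Matrix.sub_mul]

theorem fc_smul (c : ℂ) (f : ℝ → ℂ) : c • D.fc f = D.fc (fun x => c * f x) := by
  rw [← D.fc_mul, fc_const, Matrix.smul_mul, Matrix.one_mul]

theorem fc_sum {ι : Type} (s : Finset ι) (f : ι → ℝ → ℂ) :
    ∑ k ∈ s, D.fc (f k) = D.fc (fun x => ∑ k ∈ s, f k x) := by
  classical
  induction s using Finset.induction_on with
  | empty => simp [fc_zero]
  | insert a s ha ih => simp only [Finset.sum_insert ha, ih, fc_add]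

theorem fc_conjTranspose (f : ℝ → ℂ) : (D.fc f)ᴴ = D.fc (fun x => star (f x)) := by
  unfold fc
  rw [conjTranspose_mul, conjTranspose_mul, conjTranspose_conjTranspose, diagonal_conjTranspose,
    Matrix.mul_assoc]
  rfl

theorem trace_fc (f : ℝ → ℂ) : (D.fc f).trace = ∑ i, f (D.μ i) := by
  unfold fc
  rw [trace_mul_cycle, D.h1, Matrix.one_mul, trace_diagonal]

theorem conj_fc (f : ℝ → ℂ) : D.Vᴴ * D.fc f * D.V = diagonal (fun i => f (D.μ i)) := by
  unfold fc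
  calc D.Vᴴ * (D.V * diagonal (fun i => f (D.μ i)) * D.Vᴴ) * D.V
      = (D.Vᴴ * D.V) * diagonal (fun i => f (D.μ i)) * (D.Vᴴ * D.V) := by
        simp only [Matrix.mul_assoc]
    _ = _ := by rw [D.h1, Matrix.one_mul, Matrix.mul_one]

theorem eq_zero_of_fc {f : ℝ → ℂ} (h : D.fc f = 0) (i : n) : f (D.μ i) = 0 := by
  have := D.conj_fc f
  rw [h, Matrix.mul_zero, Matrix.zero_mul] at this
  have h2 := congrFun (congrFun this i) i
  simpa using h2.symm

theorem fro2_fc (f : ℝ → ℂ) : fro2 (D.fc f) = ∑ i, ‖f (D.μ i)‖ ^ 2 := by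
  have : (fro2 (D.fc f) : ℂ) = ((∑ i, ‖f (D.μ i)‖ ^ 2 : ℝ) : ℂ) := by
    rw [fro2_eq_trace, fc_conjTranspose, fc_mul, trace_fc]
    push_cast
    refine Finset.sum_congr rfl fun i _ => ?_
    rw [Complex.star_def, Complex.conj_mul']
  exact_mod_cast this

theorem commute_fc {A : Matrix n n ℂ} (hA : A * Q = Q * A) (f : ℝ → ℂ) :
    A * D.fc f = D.fc f * A := by
  set B := D.Vᴴ * A * D.V with hB
  have hAB : A = D.V * B * D.Vᴴ := by
    rw [hB]
    calc A = (D.V * D.Vᴴ) * A * (D.V * D.Vᴴ) := by rw [D.h2, Matrix.one_mul, Matrix.mul_one]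
      _ = _ := by simp only [Matrix.mul_assoc]
  have hc : ∀ X Y : Matrix n n ℂ, D.V * X * D.Vᴴ * (D.V * Y * D.Vᴴ) = D.V * (X * Y) * D.Vᴴ := by
    intro X Y
    calc D.V * X * D.Vᴴ * (D.V * Y * D.Vᴴ) = D.V * X * (D.Vᴴ * D.V) * Y * D.Vᴴ := by
          simp only [Matrix.mul_assoc]
      _ = _ := by rw [D.h1]; simp only [Matrix.mul_assoc, Matrix.mul_one]
  have hinj : ∀ X Y : Matrix n n ℂ, D.V * X * D.Vᴴ = D.V * Y * D.Vᴴ → X = Y := by
    intro X Y h
    have e : ∀ Z : Matrix n n ℂ, D.Vᴴ * (D.V * Z * D.Vᴴ) * D.V = Z := fun Z => by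
      calc D.Vᴴ * (D.V * Z * D.Vᴴ) * D.V = (D.Vᴴ * D.V) * Z * (D.Vᴴ * D.V) := by
            simp only [Matrix.mul_assoc]
        _ = Z := by rw [D.h1, Matrix.one_mul, Matrix.mul_one]
    rw [← e X, h, e]
  have h1 : B * diagonal (fun i => (D.μ i : ℂ)) = diagonal (fun i => (D.μ i : ℂ)) * B := by
    apply hinj
    rw [← hc B, ← hc _ B, ← hAB, ← D.eq, hA]
  have h2 : B * diagonal (fun i => f (D.μ i)) = diagonal (fun i => f (D.μ i)) * B := by
    ext i j
    have h3 := congrFun (congrFun h1 i) j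
    rw [mul_diagonal, diagonal_mul] at h3 ⊢
    by_cases hij : D.μ i = D.μ j
    · rw [hij, mul_comm]
    · have : B i j = 0 := by
        by_contra h0
        apply hij
        rw [mul_comm] at h3
        exact_mod_cast (mul_right_cancel₀ h0 h3).symm
      simp [this]
  unfold fc
  clear_value B
  rw [hAB, hc, hc, h2]

theorem aeval_eq (P : Polynomial ℂ) : Polynomial.aeval Q P = D.fc (fun x => P.eval (x : ℂ)) := by
  induction P using Polynomial.induction_on with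
  | C a => simp [fc_const, Algebra.algebraMap_eq_smul_one]
  | add p q hp hq => simp only [map_add, hp, hq, fc_add, Polynomial.eval_add]
  | monomial k a h =>
    rw [pow_succ, ← mul_assoc, map_mul, h, Polynomial.aeval_X]
    rw [D.fc_mul_self]
    simp

theorem μ_nonneg {m : Type} [Fintype m] {T : Matrix m n ℂ} (D : Diag (Tᴴ * T)) (i : n) :
    0 ≤ D.μ i := by
  have h := D.conj_fc (fun x => x)
  rw [D.fc_id] at h
  have h2 : (T * D.V)ᴴ * (T * D.V) = diagonal (fun i => (D.μ i : ℂ)) := by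
    rw [← h, conjTranspose_mul]
    simp only [Matrix.mul_assoc]
  have h3 := (posSemidef_conjTranspose_mul_self (T * D.V)).diag_nonneg (i := i)
  rw [h2, diagonal_apply_eq] at h3
  exact_mod_cast h3

end Diag

end Diag

end Pool.Agent.Lib.MP_098da0_al
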