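import Pool.Agent.Lib.MP_098da0_al.HSBasic

namespace Pool.Agent.Lib.MP_098da0_al

open Finset Matrix Topology
open scoped ComplexOrder

variable {n : Type} [Fintype n] [DecidableEq n]

theorem uni_star_mul (U : unitaryGroup n ℂ) : U.1ᴴ * U.1 = 1 := U.2.1

theorem uni_mul_star (U : unitaryGroup n ℂ) : U.1 * U.1ᴴ = 1 := U.2.2

theorem uni_inv (U : unitaryGroup n ℂ) : (U⁻¹).1 = U.1ᴴ := rfl

def Intw {H : Type} (A B : H → unitaryGroup n ℂ) (T : Matrix n n ℂ) : Prop :=
  ∀ h, T * (A h).1 = (B h).1 * T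

section

variable {H : Type} {A B : H → unitaryGroup n ℂ} {T T₀ : Matrix n n ℂ}

theorem Intw.adj (hT : Intw A B T) : Intw B A Tᴴ := by
  intro h
  have h1 := congrArg conjTranspose (hT h)
  rw [conjTranspose_mul, conjTranspose_mul] at h1
  calc Tᴴ * (B h).1 = ((A h).1 * (A h).1ᴴ) * Tᴴ * (B h).1 := by
        rw [uni_mul_star, Matrix.one_mul]
    _ = (A h).1 * ((A h).1ᴴ * Tᴴ) * (B h).1 := by simp only [Matrix.mul_assoc]
    _ = (A h).1 * Tᴴ * ((B h).1ᴴ * (B h).1) := by rw [h1]; simp only [Matrix.mul_assoc]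
    _ = _ := by rw [uni_star_mul, Matrix.mul_one]

theorem Intw.comm (hT : Intw A B T) (h : H) : (A h).1 * (Tᴴ * T) = Tᴴ * T * (A h).1 := by
  rw [← Matrix.mul_assoc, ← hT.adj h, Matrix.mul_assoc, ← hT h, Matrix.mul_assoc]

theorem Intw.add (hT : Intw A B T) (hT₀ : Intw A B T₀) : Intw A B (T + T₀) := fun h => by
  rw [Matrix.add_mul, Matrix.mul_add, hT h, hT₀ h]

theorem Intw.smul (hT : Intw A B T) (c : ℂ) : Intw A B (c • T) := fun h => by
  rw [Matrix.smul_mul, Matrix.mul_smul, hT h]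

theorem polar_unit (hT : Intw A B T) (hu : IsUnit T) :
    ∃ W : unitaryGroup n ℂ, Intw A B W.1 ∧ fro2 (W.1 - T) ≤ fro2 (1 - Tᴴ * T) := by
  obtain ⟨D⟩ := nonempty_diag (Q := Tᴴ * T) (by simp)
  have hQ : IsUnit (Tᴴ * T) := ((isUnit_conjTranspose T).2 hu).mul hu
  have hμ : ∀ i, 0 < D.μ i := by
    intro i
    refine lt_of_le_of_ne (D.μ_nonneg i) fun h0 => ?_
    have h1 : Tᴴ * T * D.fc (fun x => if x = 0 then 1 else 0) = 0 := by
      rw [D.self_mul_fc, ← D.fc_zero]
      exact D.fc_congr fun j => by split_ifs with h <;> simp [h]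
    have h2 := D.eq_zero_of_fc (hQ.mul_right_eq_zero.1 h1) i
    simp [← h0] at h2
  set R := D.fc (fun x => ((√x)⁻¹ : ℝ)) with hR
  have hRs : Rᴴ = R := by
    rw [hR, D.fc_conjTranspose]
    exact D.fc_congr fun i => by simp
  have hsq : ∀ i, (D.μ i : ℂ) = (√(D.μ i) : ℝ) * (√(D.μ i) : ℝ) := fun i => by
    exact_mod_cast (Real.mul_self_sqrt (hμ i).le).symm
  have hne : ∀ i, ((√(D.μ i) : ℝ) : ℂ) ≠ 0 := fun i => by
    exact_mod_cast (Real.sqrt_pos.2 (hμ i)).ne'
  have hW : (T * R)ᴴ * (T * R) = 1 := by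
    rw [conjTranspose_mul, hRs]
    calc R * Tᴴ * (T * R) = R * (Tᴴ * T) * R := by simp only [Matrix.mul_assoc]
      _ = 1 := by
        rw [hR, D.fc_mul_self, D.fc_mul, ← D.fc_one]
        refine D.fc_congr fun i => ?_
        have := hne i
        rw [hsq i]
        push_cast
        field_simp
  refine ⟨⟨T * R, mem_unitaryGroup_iff'.2 hW⟩, fun h => ?_, ?_⟩
  · change T * R * (A h).1 = (B h).1 * (T * R)
    rw [Matrix.mul_assoc, hR, ← D.commute_fc (hT.comm h), ← Matrix.mul_assoc, hT h,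
      Matrix.mul_assoc]
  · change fro2 (T * R - T) ≤ _
    have e1 : T * R - T = T * D.fc (fun x => ((√x)⁻¹ : ℝ) - 1) := by
      rw [← D.fc_sub, D.fc_one, Matrix.mul_sub, Matrix.mul_one]
    have e2 : (fro2 (T * R - T) : ℂ) = ((∑ i, (1 - √(D.μ i)) ^ 2 : ℝ) : ℂ) := by
      rw [fro2_eq_trace, e1, conjTranspose_mul, D.fc_conjTranspose]
      have : ∀ X Y : Matrix n n ℂ, X * Tᴴ * (T * Y) = X * (Tᴴ * T) * Y := fun X Y => by
        simp only [Matrix.mul_assoc]
      rw [this, D.fc_mul_self, D.fc_mul, D.trace_fc]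
      push_cast
      refine Finset.sum_congr rfl fun i _ => ?_
      have := hne i
      conv_lhs => rw [hsq i]
      simp only [star_sub, star_one, star_inv₀, Complex.star_def, Complex.conj_ofReal]
      field_simp
    have e3 : 1 - Tᴴ * T = D.fc (fun x => 1 - x) := by rw [← D.fc_sub, D.fc_one, D.fc_id]
    rw [Complex.ofReal_inj.1 e2, e3, D.fro2_fc]
    refine Finset.sum_le_sum fun i _ => ?_
    rw [← Complex.ofReal_one, ← Complex.ofReal_sub, Complex.norm_real, Real.norm_eq_abs, sq_abs]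
    have h1 := Real.mul_self_sqrt (hμ i).le
    have h2 := Real.sqrt_nonneg (D.μ i)
    set s := √(D.μ i)
    rw [← h1]
    have : (1 - s * s) ^ 2 = (1 - s) ^ 2 * (1 + s) ^ 2 := by ring
    rw [this]
    have h3 : 1 ≤ (1 + s) ^ 2 := by nlinarith
    nlinarith [sq_nonneg (1 - s)]

theorem polar_approx (hT : Intw A B T) (hT₀ : Intw A B T₀) (hu : IsUnit T₀) {η : ℝ}
    (hη : 0 < η) :
    ∃ W : unitaryGroup n ℂ, Intw A B W.1 ∧ fro2 (W.1 - T) ≤ 2 * fro2 (1 - Tᴴ * T) + η := by
  let f : ℂ → ℝ := fun ε => 2 * fro2 (1 - (T + ε • T₀)ᴴ * (T + ε • T₀)) + 2 * fro2 (ε • T₀)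
  have hf : Continuous f := by
    have := continuous_fro2 (m := n) (n := n)
    fun_prop
  have h1 : {ε | f ε < f 0 + η} ∈ 𝓝 (0 : ℂ) :=
    (isOpen_lt hf continuous_const).mem_nhds (by simpa using hη)
  obtain ⟨U, rfl⟩ := hu
  have h2 : {ε : ℂ | ¬ IsUnit (T + ε • U.1)}.Finite := by
    refine (Matrix.finite_spectrum (-(U⁻¹.1 * T))).subset fun ε hε => ?_
    rw [spectrum.mem_iff]
    intro h
    apply hε
    have := U.isUnit.mul h
    rw [Algebra.algebraMap_eq_smul_one, sub_neg_eq_add, mul_add, ← mul_assoc, U.mul_inv, one_mul,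
      mul_smul_comm, mul_one, add_comm] at this
    exact this
  obtain ⟨ε, hε1, hε2⟩ := (infinite_of_mem_nhds _ h1).exists_notMem_finite h2
  obtain ⟨W, hW1, hW2⟩ := polar_unit (hT.add (hT₀.smul ε)) (not_not.1 hε2)
  refine ⟨W, hW1, ?_⟩
  have h3 := fro2_tri W.1 (T + ε • U.1) T
  rw [add_sub_cancel_left] at h3
  have h4 : f ε < f 0 + η := hε1
  simp only [f, zero_smul, add_zero, fro2_zero, mul_zero] at h4
  linarith

end

section

variable {H : Type} [Group H] [Fintype H] (α β : H →* unitaryGroup n ℂ)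

theorem intw_avg (X : Matrix n n ℂ) : Intw α β (∑ h, (β h).1 * X * (α h).1ᴴ) := by
  intro g
  rw [Finset.sum_mul, Finset.mul_sum, ← Equiv.sum_comp (Equiv.mulLeft g)]
  refine Finset.sum_congr rfl fun h _ => ?_
  simp only [Equiv.coe_mulLeft, map_mul, Submonoid.coe_mul, conjTranspose_mul, Matrix.mul_assoc,
    uni_star_mul, Matrix.mul_one]

variable {α β}

theorem exists_better (htr : ∀ h, (α h).1.trace = (β h).1.trace) {T : Matrix n n ℂ}
    (hT : Intw α β T) :
    IsUnit T ∨ ∃ T', Intw α β T' ∧ LinearMap.ker T'.mulVecLin < LinearMap.ker T.mulVecLin := by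
  obtain ⟨D⟩ := nonempty_diag (Q := Tᴴ * T) (by simp)
  set p := D.fc (fun x => if x = 0 then 1 else 0) with hp
  set g := D.fc (fun x => (x : ℂ)⁻¹) with hg
  have hps : pᴴ = p := by
    rw [hp, D.fc_conjTranspose]
    exact D.fc_congr fun i => by split_ifs <;> simp
  have hpp : p * p = p := by
    rw [hp, D.fc_mul]
    exact D.fc_congr fun i => by split_ifs <;> simp
  have hQp : Tᴴ * T * p = 0 := by
    rw [hp, D.self_mul_fc, ← D.fc_zero]
    exact D.fc_congr fun j => by split_ifs with h <;> simp [h]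
  have hTp : T * p = 0 := (conjTranspose_mul_self_mul_eq_zero _ _).1 hQp
  have hpT : p * Tᴴ = 0 := by
    have := congrArg conjTranspose hTp
    rwa [conjTranspose_mul, hps, conjTranspose_zero] at this
  have hone : D.fc (fun x => (x : ℂ)⁻¹ * x) = 1 - p := by
    rw [hp, ← D.fc_one, D.fc_sub]
    refine D.fc_congr fun j => ?_
    split_ifs with h
    · simp [h]
    · rw [inv_mul_cancel₀ (by exact_mod_cast h), sub_zero]
  have hgQ : g * (Tᴴ * T) = 1 - p := by rw [hg, D.fc_mul_self, hone]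
  have hQg : Tᴴ * T * g = 1 - p := by
    rw [hg, D.self_mul_fc, ← hone]
    exact D.fc_congr fun j => mul_comm _ _
  by_cases hp0 : p = 0
  · left
    rw [hp0, sub_zero, ← Matrix.mul_assoc] at hgQ
    exact IsUnit.of_mul_eq_one _ (mul_eq_one_comm.1 hgQ)
  right
  set p' := 1 - T * g * Tᴴ with hp'
  have hTp' : Tᴴ * p' = 0 := by
    rw [hp', Matrix.mul_sub, Matrix.mul_one, ← Matrix.mul_assoc, ← Matrix.mul_assoc, hQg,
      Matrix.sub_mul, hpT]
    simp
  have hαp : ∀ h, (α h).1 * p = p * (α h).1 := fun h => D.commute_fc (hT.comm h) _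
  have htr' : ∀ h, ((β h).1 * p').trace = ((α h).1 * p).trace := by
    intro h
    have e : ((β h).1 * (T * g * Tᴴ)).trace = ((α h).1 * (1 - p)).trace := by
      rw [← hgQ, ← Matrix.mul_assoc, ← Matrix.mul_assoc, ← hT h, Matrix.mul_assoc T,
        Matrix.mul_assoc T, trace_mul_comm T]
      simp only [Matrix.mul_assoc]
    rw [hp', Matrix.mul_sub, trace_sub, e, Matrix.mul_sub, trace_sub, Matrix.mul_one,
      Matrix.mul_one, htr h]
    ring
  have hS : ∃ i j, ∑ h, (β h).1 * (p' * single i j 1 * p) * (α h).1ᴴ ≠ 0 := by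
    by_contra hc
    push Not at hc
    have h1 : ∑ h, ((β h).1 * p').trace * (p * (α h).1ᴴ).trace = 0 := by
      have : ∀ i j, ∑ h, ((β h).1 * p') i i * (p * (α h).1ᴴ) j j = 0 := by
        intro i j
        have := congrFun (congrFun (hc i j) i) j
        rw [Matrix.sum_apply] at this
        refine Eq.trans (Finset.sum_congr rfl fun h _ => ?_) this
        symm
        have e : (β h).1 * (p' * single i j 1 * p) * (α h).1ᴴ =
            ((β h).1 * p') * (single i j 1 * (p * (α h).1ᴴ)) := by simp only [Matrix.mul_assoc]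
        rw [e, Matrix.mul_apply (M := (β h).1 * p'), Finset.sum_eq_single i]
        · simp
        · intro k _ hk
          simp [hk]
        · simp
      simp only [Matrix.trace, Matrix.diag, Finset.sum_mul_sum]
      rw [Finset.sum_comm]
      refine Finset.sum_eq_zero fun i _ => ?_
      rw [Finset.sum_comm]
      exact Finset.sum_eq_zero fun j _ => this i j
    have h2 : ∀ h, ((β h).1 * p').trace * (p * (α h).1ᴴ).trace =
        (Complex.normSq ((α h).1 * p).trace : ℝ) := by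
      intro h
      rw [htr', ← Complex.mul_conj]
      congr 1
      rw [← Complex.star_def, ← trace_conjTranspose, conjTranspose_mul, hps]
    simp only [h2] at h1
    have h3 : ∑ h, Complex.normSq ((α h).1 * p).trace = 0 := by exact_mod_cast h1
    rw [Finset.sum_eq_zero_iff_of_nonneg (fun _ _ => Complex.normSq_nonneg _)] at h3
    have h4 := Complex.normSq_eq_zero.1 (h3 1 (mem_univ _))
    rw [map_one, OneMemClass.coe_one, Matrix.one_mul] at h4
    apply hp0
    apply fro2_eq_zero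
    rw [fro2_eq_re_trace, hps, hpp, h4]
    simp
  obtain ⟨i, j, hS0⟩ := hS
  set S := ∑ h, (β h).1 * (p' * single i j 1 * p) * (α h).1ᴴ with hSdef
  have hSi : Intw α β S := intw_avg α β _
  have hSp : S * p = S := by
    rw [hSdef, Finset.sum_mul]
    refine Finset.sum_congr rfl fun h _ => ?_
    have e : (α h).1ᴴ * p = p * (α h).1ᴴ := by
      have := hαp h⁻¹
      rwa [map_inv, uni_inv] at this
    simp only [Matrix.mul_assoc]
    rw [e, ← Matrix.mul_assoc p p, hpp]
  have hTS : Tᴴ * S = 0 := by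
    rw [hSdef, Finset.mul_sum]
    refine Finset.sum_eq_zero fun h _ => ?_
    rw [← Matrix.mul_assoc, ← Matrix.mul_assoc, hT.adj h]
    simp only [Matrix.mul_assoc]
    rw [← Matrix.mul_assoc Tᴴ, hTp']
    simp
  refine ⟨T + S, hT.add hSi, lt_of_le_of_ne ?_ ?_⟩
  · intro v hv
    simp only [LinearMap.mem_ker, mulVecLin_apply] at hv ⊢
    rw [← conjTranspose_mul_self_mulVec_eq_zero]
    have := congrArg (Tᴴ *ᵥ ·) hv
    simpa [Matrix.mul_add, hTS] using this
  · intro heq
    apply hS0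
    rw [← hSp]
    refine Matrix.ext_iff_mulVec.2 fun v => ?_
    have h1 : p *ᵥ v ∈ LinearMap.ker T.mulVecLin := by simp [hTp]
    rw [← heq] at h1
    simpa [Matrix.add_mul, hTp] using h1

theorem exists_unit_intw (htr : ∀ h, (α h).1.trace = (β h).1.trace) :
    ∃ T₀, Intw α β T₀ ∧ IsUnit T₀ := by
  have key : ∀ N : Submodule ℂ (n → ℂ), ∀ T, Intw α β T → LinearMap.ker T.mulVecLin = N →
      ∃ T₀, Intw α β T₀ ∧ IsUnit T₀ := by
    intro N
    induction N using WellFoundedLT.induction with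
    | ind N ih =>
      rintro T hT rfl
      rcases exists_better htr hT with h | ⟨T', h1, h2⟩
      · exact ⟨T, hT, h⟩
      · exact ih _ h2 T' h1 rfl
  exact key _ 0 (fun h => by simp) rfl

theorem hs_rigid (htr : ∀ h, (α h).1.trace = (β h).1.trace) :
    ∃ u : unitaryGroup n ℂ, (∀ h, u * α h * u⁻¹ = β h) ∧
      fro2 (u.1 - 1) ≤ 20 * ∑ h, fro2 ((α h).1 - (β h).1) := by
  set E := ∑ h, fro2 ((α h).1 - (β h).1) with hE
  have hEh : ∀ h, fro2 ((α h).1 - (β h).1) ≤ E := fun h =>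
    Finset.single_le_sum (f := fun h => fro2 ((α h).1 - (β h).1)) (fun _ _ => fro2_nonneg _)
      (mem_univ h)
  have hE0 : 0 ≤ E := Finset.sum_nonneg (fun h _ => fro2_nonneg ((α h).1 - (β h).1))
  rcases hE0.eq_or_lt with h0 | h0
  · refine ⟨1, fun h => ?_, by simp [← h0]⟩
    have := fro2_eq_zero (le_antisymm (h0 ▸ hEh h) (fro2_nonneg _))
    simpa using Subtype.ext (sub_eq_zero.1 this)
  obtain ⟨T₀, h1, h2⟩ := exists_unit_intw htr
  have hc : (Fintype.card H : ℂ) ≠ 0 := by exact_mod_cast Fintype.card_ne_zero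
  set T := (Fintype.card H : ℂ)⁻¹ • ∑ h, (β h).1 * 1 * (α h).1ᴴ with hT
  obtain ⟨W, hW1, hW2⟩ := polar_approx ((intw_avg α β 1).smul (Fintype.card H : ℂ)⁻¹) h1 h2 h0
  rw [← hT] at hW2
  have h3 : fro2 (T - 1) ≤ E := by
    have e : T - 1 = (Fintype.card H : ℂ)⁻¹ • ∑ h, ((β h).1 - (α h).1) * (α h).1ᴴ := by
      simp only [hT, Matrix.sub_mul, uni_mul_star, Finset.sum_sub_distrib, smul_sub,
        Matrix.mul_one, Finset.sum_const, card_univ]
      rw [← Nat.cast_smul_eq_nsmul ℂ, smul_smul, inv_mul_cancel₀ hc, one_smul]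
    rw [e]
    refine fro2_avg_le _ fun h => ?_
    rw [fro2_mul_right (by simpa using uni_star_mul (α h)), fro2_sub_comm]
    exact hEh h
  have h4 : fro2 (Tᴴ * (1 - T)) ≤ E := by
    have e : Tᴴ * (1 - T) =
        (Fintype.card H : ℂ)⁻¹ • ∑ h, (α h).1 * ((β h).1ᴴ * (1 - T)) := by
      conv_lhs => arg 1; rw [hT]
      simp [conjTranspose_sum, Finset.sum_mul, Matrix.mul_assoc]
    rw [e]
    refine fro2_avg_le _ fun h => ?_
    rw [fro2_mul_left (uni_star_mul _), fro2_mul_left (by simpa using uni_mul_star (β h)),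
      fro2_sub_comm]
    exact h3
  have h5 : fro2 (1 - Tᴴ * T) ≤ 4 * E := by
    have e : 1 - Tᴴ * T = (1 - T)ᴴ + Tᴴ * (1 - T) := by
      simp [Matrix.mul_sub]
    have := fro2_add_le (1 - T)ᴴ (Tᴴ * (1 - T))
    rw [← e, fro2_conjTranspose, fro2_sub_comm 1 T] at this
    linarith
  refine ⟨W, fun h => ?_, ?_⟩
  · rw [mul_inv_eq_iff_eq_mul]
    exact Subtype.ext (hW1 h)
  · have := fro2_tri W.1 T 1
    linarith

end

end Pool.Agent.Lib.MP_098da0_al
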