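import Pool.Agent.Lib.MP_098da0_al.HSModel
import Pool.Agent.Lib.MP_098da0_al.Bridge

namespace Pool.Agent.Lib.MP_098da0_al

open Finset Matrix Filter Asymptotics

section

variable {G : Type} [Group G] (K : Subgroup G)

noncomputable def Ψ {n : ℕ} (ψ : G →* Uni n) : MonoidAlgebra ℂ K →ₐ[ℂ] Mat n :=
  MonoidAlgebra.lift ℂ (Mat n) K ((unitaryGroup (Fin n) ℂ).subtype.comp (ψ.comp K.subtype))

variable {K}

@[simp] theorem Ψ_of {n : ℕ} (ψ : G →* Uni n) (k : K) :
    Ψ K ψ (MonoidAlgebra.of ℂ K k) = (ψ k).1 := by simp [Ψ]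

theorem commute_Ψ {n : ℕ} (ψ : G →* Uni n) {M : Mat n} (hM : ∀ g, (ψ g).1 * M = M * (ψ g).1)
    (x : MonoidAlgebra ℂ K) : Ψ K ψ x * M = M * Ψ K ψ x := by
  induction x using MonoidAlgebra.induction_on with
  | of k => rw [Ψ_of, hM]
  | add x y hx hy => rw [map_add, Matrix.add_mul, Matrix.mul_add, hx, hy]
  | smul c x hx => rw [map_smul, Matrix.smul_mul, Matrix.mul_smul, hx]

theorem Ψ_glue {a b n : ℕ} (h : a + b = n) (u : Uni n) (π : G →* Uni a) (l : G →* Uni b)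
    {ψ : G →* Uni n} (hψ : ∀ g, ψ g = u * mbs h (π g, l g) * u⁻¹) (x : MonoidAlgebra ℂ K) :
    Ψ K ψ x = u.1 * bl h (Ψ K π x) (Ψ K l x) * u.1ᴴ := by
  induction x using MonoidAlgebra.induction_on with
  | of k => rw [Ψ_of, Ψ_of, Ψ_of, hψ]; rfl
  | add x y hx hy =>
    rw [map_add, map_add, map_add, hx, hy, ← bl_add, Matrix.mul_add, Matrix.add_mul]
  | smul c x hx =>
    rw [map_smul, map_smul, map_smul, hx, ← bl_smul, Matrix.mul_smul, Matrix.smul_mul]

theorem small_trace_Ψ {k N : ℕ → ℕ} (hkN : ∀ n, k n ≤ N n) {ψ ψ' : ∀ n, G →* Uni (k n)}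
    (h : ∀ g, Small N (fun n => fro2 ((ψ n g).1 - (ψ' n g).1))) (x : MonoidAlgebra ℂ K) :
    Small N (fun n => ‖(Ψ K (ψ n) x).trace - (Ψ K (ψ' n) x).trace‖) := by
  induction x using MonoidAlgebra.induction_on with
  | of g => simpa only [Ψ_of] using small_trace hkN (h g)
  | add x y hx hy =>
    refine Small.of_le (hx.add hy) (fun _ => norm_nonneg _) fun n => ?_
    rw [map_add, map_add, trace_add, trace_add, add_sub_add_comm]
    exact norm_add_le _ _
  | smul c x hx =>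
    refine (hx.const_mul_left ‖c‖).congr_left fun n => ?_
    rw [map_smul, map_smul, trace_smul, trace_smul, ← smul_sub, norm_smul]

variable (K)

def Good (w : MonoidAlgebra ℂ K) : Prop :=
  ∀ (n : ℕ) (ψ : G →* Uni n),
    (Ψ K ψ w)ᴴ = Ψ K ψ w ∧ ∀ g, (ψ g).1 * Ψ K ψ w = Ψ K ψ w * (ψ g).1

structure IdemSys where
  T : Type
  fT : Fintype T
  e : T → MonoidAlgebra ℂ K
  good : ∀ t, Good K (e t)
  idem : ∀ t (n : ℕ) (ψ : G →* Uni n), Ψ K ψ (e t) * Ψ K ψ (e t) = Ψ K ψ (e t)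
  sum_eq : ∀ (n : ℕ) (ψ : G →* Uni n), ∑ t, Ψ K ψ (e t) = 1

attribute [instance] IdemSys.fT

variable {K}

def IdemSys.Scalar (S : IdemSys K) (w : MonoidAlgebra ℂ K) : Prop :=
  ∀ t, ∃ c : ℂ, ∀ (n : ℕ) (ψ : G →* Uni n), Ψ K ψ w * Ψ K ψ (S.e t) = c • Ψ K ψ (S.e t)

noncomputable def IdemSys.triv : IdemSys K where
  T := Unit
  fT := inferInstance
  e _ := 1
  good _ n ψ := by simp
  idem _ n ψ := by simp
  sum_eq n ψ := by simp

noncomputable def IdemSys.prod (S S' : IdemSys K) : IdemSys K where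
  T := S.T × S'.T
  fT := inferInstance
  e t := S.e t.1 * S'.e t.2
  good t n ψ := by
    obtain ⟨h1, h2⟩ := S.good t.1 n ψ
    obtain ⟨h3, h4⟩ := S'.good t.2 n ψ
    constructor
    · rw [map_mul, conjTranspose_mul, h1, h3, commute_Ψ ψ h2]
    · intro g
      rw [map_mul, ← Matrix.mul_assoc, h2, Matrix.mul_assoc, h4, Matrix.mul_assoc]
  idem t n ψ := by
    have h := commute_Ψ ψ (S.good t.1 n ψ).2 (S'.e t.2)
    rw [map_mul, Matrix.mul_assoc, ← Matrix.mul_assoc (Ψ K ψ (S'.e t.2)), h, Matrix.mul_assoc,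
      S'.idem, ← Matrix.mul_assoc, S.idem]
  sum_eq n ψ := by
    simp only [map_mul, Fintype.sum_prod_type, ← Finset.mul_sum, S'.sum_eq, mul_one, S.sum_eq]

theorem IdemSys.Scalar.prod_left {S S' : IdemSys K} {w : MonoidAlgebra ℂ K} (h : S.Scalar w) :
    (S.prod S').Scalar w := by
  intro t
  obtain ⟨c, hc⟩ := h t.1
  refine ⟨c, fun n ψ => ?_⟩
  change _ * Ψ K ψ (S.e t.1 * S'.e t.2) = c • Ψ K ψ (S.e t.1 * S'.e t.2)
  rw [map_mul, ← Matrix.mul_assoc, hc, Matrix.smul_mul]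

theorem IdemSys.Scalar.prod_right {S S' : IdemSys K} {w : MonoidAlgebra ℂ K} (h : S'.Scalar w) :
    (S.prod S').Scalar w := by
  intro t
  obtain ⟨c, hc⟩ := h t.2
  refine ⟨c, fun n ψ => ?_⟩
  change _ * Ψ K ψ (S.e t.1 * S'.e t.2) = c • Ψ K ψ (S.e t.1 * S'.e t.2)
  rw [map_mul, ← Matrix.mul_assoc, commute_Ψ ψ (S.good t.1 n ψ).2, Matrix.mul_assoc, hc,
    Matrix.mul_smul]

theorem exists_sys_single [Finite K] {w : MonoidAlgebra ℂ K} (hw : Good K w) :
    ∃ S : IdemSys K, S.Scalar w := by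
  classical
  have hint : IsIntegral ℂ w := Algebra.IsIntegral.isIntegral w
  obtain ⟨P, hP1, hP2⟩ := hint
  let Λ : Finset ℂ := P.roots.toFinset
  have key : ∀ (n : ℕ) (ψ : G →* Uni n), ∃ D : Diag (Ψ K ψ w), (∀ i, (D.μ i : ℂ) ∈ Λ) ∧
      ∀ c : Λ, Ψ K ψ (Polynomial.aeval w (Lagrange.basis Λ id c.1)) =
        D.fc (fun x => if c.1 = x then 1 else 0) := by
    intro n ψ
    obtain ⟨D⟩ := nonempty_diag (hw n ψ).1
    have h1 : ∀ i, (D.μ i : ℂ) ∈ Λ := by
      intro i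
      have h2 : D.fc (fun x => P.eval (x : ℂ)) = 0 := by
        rw [← D.aeval_eq, Polynomial.aeval_algHom_apply, Polynomial.aeval_def, hP2, map_zero]
      simpa [Λ, hP1.ne_zero] using D.eq_zero_of_fc h2 i
    refine ⟨D, h1, fun c => ?_⟩
    rw [← Polynomial.aeval_algHom_apply, D.aeval_eq]
    refine D.fc_congr fun i => ?_
    split_ifs with hc
    · rw [← hc]
      exact Lagrange.eval_basis_self (v := id) (Set.injOn_id _) c.2
    · exact Lagrange.eval_basis_of_ne (v := id) hc (h1 i)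
  refine ⟨⟨Λ, inferInstance, fun c => Polynomial.aeval w (Lagrange.basis Λ id c.1),
    fun c n ψ => ?_, fun c n ψ => ?_, fun n ψ => ?_⟩, fun c => ⟨c.1, fun n ψ => ?_⟩⟩
  · obtain ⟨D, -, h⟩ := key n ψ
    rw [h]
    refine ⟨?_, fun g => D.commute_fc ((hw n ψ).2 g) _⟩
    rw [D.fc_conjTranspose]
    exact D.fc_congr fun i => by split_ifs <;> simp
  · obtain ⟨D, -, h⟩ := key n ψ
    rw [h, D.fc_mul]
    exact D.fc_congr fun i => by split_ifs <;> simp
  · obtain ⟨D, h1, h⟩ := key n ψ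
    simp only [h]
    rw [D.fc_sum, ← D.fc_one]
    refine D.fc_congr fun i => ?_
    rw [Finset.sum_coe_sort Λ (fun c => if c = (D.μ i : ℂ) then (1 : ℂ) else 0)]
    simp [h1 i]
  · obtain ⟨D, -, h⟩ := key n ψ
    change _ * Ψ K ψ (Polynomial.aeval w (Lagrange.basis Λ id c.1)) =
      c.1 • Ψ K ψ (Polynomial.aeval w (Lagrange.basis Λ id c.1))
    rw [h, D.self_mul_fc, D.fc_smul]
    exact D.fc_congr fun i => by split_ifs with hc <;> simp [hc]

theorem exists_sys [Finite K] (s : Finset (MonoidAlgebra ℂ K)) (hs : ∀ w ∈ s, Good K w) :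
    ∃ S : IdemSys K, ∀ w ∈ s, S.Scalar w := by
  classical
  induction s using Finset.induction_on with
  | empty => exact ⟨IdemSys.triv, by simp⟩
  | insert w s _ ih =>
    obtain ⟨S, hS⟩ := ih fun w' hw' => hs w' (mem_insert_of_mem hw')
    obtain ⟨S', hS'⟩ := exists_sys_single (hs w (mem_insert_self _ _))
    refine ⟨S.prod S', fun w' hw' => ?_⟩
    rcases mem_insert.1 hw' with rfl | hw'
    · exact hS'.prod_right
    · exact (hS w' hw').prod_left

variable [K.Normal]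

variable (K) in
abbrev Γ : Subgroup (MulAut K) := (MulAut.conjNormal : G →* MulAut K).range

variable [Fintype (Γ K)]

noncomputable def zz (k : K) : MonoidAlgebra ℂ K := ∑ γ : Γ K, MonoidAlgebra.of ℂ K (γ.1 k)

theorem Ψ_zz {n : ℕ} (ψ : G →* Uni n) (k : K) : Ψ K ψ (zz k) = ∑ γ : Γ K, (ψ (γ.1 k)).1 := by
  simp only [zz, map_sum, Ψ_of]

theorem zz_conjTranspose {n : ℕ} (ψ : G →* Uni n) (k : K) :
    (Ψ K ψ (zz k))ᴴ = Ψ K ψ (zz k⁻¹) := by
  simp only [Ψ_zz, conjTranspose_sum, map_inv, InvMemClass.coe_inv, uni_inv]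

theorem zz_comm {n : ℕ} (ψ : G →* Uni n) (k : K) (g : G) :
    (ψ g).1 * Ψ K ψ (zz k) = Ψ K ψ (zz k) * (ψ g).1 := by
  rw [Ψ_zz, Finset.mul_sum, Finset.sum_mul,
    ← Equiv.sum_comp (Equiv.mulLeft (⟨MulAut.conjNormal g, g, rfl⟩ : Γ K))
      (fun γ : Γ K => (ψ (γ.1 k)).1 * (ψ g).1)]
  refine Finset.sum_congr rfl fun γ _ => ?_
  rw [← Submonoid.coe_mul, ← Submonoid.coe_mul, ← map_mul, ← map_mul]
  simp

theorem trace_zz {n : ℕ} (ψ : G →* Uni n) (k : K) :
    (Ψ K ψ (zz k)).trace = Fintype.card (Γ K) * (ψ k).1.trace := by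
  rw [Ψ_zz, trace_sum]
  have : ∀ γ : Γ K, (ψ (γ.1 k)).1.trace = (ψ k).1.trace := by
    rintro ⟨_, g, rfl⟩
    simp only [MulAut.conjNormal_apply, map_mul, map_inv, Submonoid.coe_mul, uni_inv]
    rw [trace_mul_cycle, uni_star_mul, Matrix.one_mul]
  simp [this]

theorem exists_sys_zz [Finite K] : ∃ S : IdemSys K, ∀ k : K, S.Scalar (zz k) := by
  classical
  have := Fintype.ofFinite K
  obtain ⟨S, hS⟩ := exists_sys (K := K) ((univ.image fun k : K => zz k + zz k⁻¹) ∪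
      (univ.image fun k : K => Complex.I • (zz k - zz k⁻¹))) (by
    intro w hw
    simp only [mem_union, mem_image, mem_univ, true_and] at hw
    rcases hw with ⟨k, rfl⟩ | ⟨k, rfl⟩
    · intro n ψ
      constructor
      · rw [map_add, conjTranspose_add, zz_conjTranspose, zz_conjTranspose, inv_inv, add_comm]
      · intro g
        rw [map_add, Matrix.mul_add, Matrix.add_mul, zz_comm, zz_comm]
    · intro n ψ
      constructor
      · rw [map_smul, map_sub, conjTranspose_smul, conjTranspose_sub, zz_conjTranspose,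
          zz_conjTranspose, inv_inv, Complex.star_def, Complex.conj_I, neg_smul, ← smul_neg,
          neg_sub]
      · intro g
        rw [map_smul, map_sub, Matrix.mul_smul, Matrix.smul_mul, Matrix.mul_sub, Matrix.sub_mul,
          zz_comm, zz_comm])
  refine ⟨S, fun k t => ?_⟩
  obtain ⟨c, hc⟩ := hS (zz k + zz k⁻¹) (by simp) t
  obtain ⟨c', hc'⟩ := hS (Complex.I • (zz k - zz k⁻¹)) (by simp) t
  refine ⟨2⁻¹ * (c - Complex.I * c'), fun n ψ => ?_⟩
  have e : zz k = (2⁻¹ : ℂ) • ((zz k + zz k⁻¹) - Complex.I • Complex.I • (zz k - zz k⁻¹)) := by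
    rw [smul_smul, Complex.I_mul_I]
    module
  conv_lhs => rw [e]
  rw [map_smul, map_sub, map_smul, Matrix.smul_mul, Matrix.sub_mul, Matrix.smul_mul, hc, hc']
  module

end

theorem exists_nat_trace {n : ℕ} {p : Mat n} (hps : pᴴ = p) (hpp : p * p = p) :
    ∃ a : ℕ, (a : ℂ) = p.trace := by
  obtain ⟨a, b, h, u, hp⟩ := proj_split hps hpp
  refine ⟨a, ?_⟩
  rw [hp, trace_mul_cycle, uni_star_mul, Matrix.one_mul, trace_bl]
  simp

theorem nonempty_hsTypes {G H : Type} [Group G] [Group H] [Fintype H] (φ : H →* G)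
    (K : Subgroup G) [K.Normal] [Finite K] (hK : ∀ x, φ x ∈ K) :
    Nonempty (TypeSys (hsInv H) φ) := by
  have : Finite (MulAut K) := Finite.of_injective _ DFunLike.coe_injective
  have := Fintype.ofFinite (Γ K)
  obtain ⟨S, hS⟩ := exists_sys_zz (K := K)
  choose c hc using hS
  choose m hm using fun (n : ℕ) (ψ : G →* Uni n) (t : S.T) =>
    exists_nat_trace (S.good t n ψ).1 (S.idem t n ψ)
  refine ⟨{
    T := S.T
    fT := inferInstance
    m := fun ψ t => m _ ψ t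
    b := fun t (h : H) => (Fintype.card (Γ K) : ℂ)⁻¹ * c ⟨φ h, hK h⟩ t
    m_glue := fun h u π l t => ?_
    m_sum := fun {n} ψ => ?_
    split := fun ψ t => ?_
    cont := fun k N hkN ψ ψ' h t => ?_
    formula := fun ψ (h : H) => ?_ }⟩
  · apply Nat.cast_injective (R := ℂ)
    rw [Nat.cast_add, hm, hm, hm, Ψ_glue h u π l (fun _ => rfl), trace_mul_cycle, uni_star_mul,
      Matrix.one_mul, trace_bl]
  · apply Nat.cast_injective (R := ℂ)
    rw [Nat.cast_sum]
    simp only [hm]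
    rw [← trace_sum, S.sum_eq]
    simp
  · obtain ⟨a, b, h, u, π, l, h1, h2⟩ := hs_split ψ (S.good t _ ψ).1 (S.idem t _ ψ)
      (S.good t _ ψ).2
    rw [Ψ_glue h u π l h1] at h2
    have h3 : bl h (Ψ K π (S.e t)) (Ψ K l (S.e t)) = bl h 1 0 := by
      have e : ∀ X : Mat _, u.1ᴴ * (u.1 * X * u.1ᴴ) * u.1 = X := fun X => by
        calc u.1ᴴ * (u.1 * X * u.1ᴴ) * u.1 = (u.1ᴴ * u.1) * X * (u.1ᴴ * u.1) := by
              simp only [Matrix.mul_assoc]
          _ = X := by rw [uni_star_mul, Matrix.one_mul, Matrix.mul_one]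
      rw [← e (bl h 1 0), ← h2, e]
    obtain ⟨h4, h5⟩ := bl_inj h h3
    refine ⟨a, b, h, u, π, l, MonoidHom.ext h1, ?_, ?_⟩
    · apply Nat.cast_injective (R := ℂ)
      rw [hm, h4]
      simp
    · apply Nat.cast_injective (R := ℂ)
      rw [hm, h5]
      simp
  · refine Small.of_abs_le (small_trace_Ψ hkN h (S.e t)) fun n => le_of_eq ?_
    rw [← hm, ← hm, ← Complex.ofReal_natCast, ← Complex.ofReal_natCast, ← Complex.ofReal_sub,
      Complex.norm_real, Real.norm_eq_abs]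
  · have hc0 : (Fintype.card (Γ K) : ℂ) ≠ 0 := by exact_mod_cast Fintype.card_ne_zero
    have h1 := trace_zz ψ ⟨φ h, hK h⟩
    rw [← Matrix.mul_one (Ψ K ψ _), ← S.sum_eq _ ψ, Finset.mul_sum, trace_sum] at h1
    simp only [hc, trace_smul, ← hm, smul_eq_mul] at h1
    change (ψ (φ h)).1.trace = _
    rw [← inv_mul_eq_iff_eq_mul₀ hc0, Finset.mul_sum] at h1
    exact h1.symm.trans (Finset.sum_congr rfl fun t _ => by ring)

theorem hsStable_iff (G : Type) [Group G] : HSStable G ↔ hsModel.Stable G :=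
  isStable_iff hsModel hsDist (fun k hk x y => by
    rw [small_iff_tendsto hk]
    simp only [hsDist, ← fro2_eq_re_trace]
    constructor
    · intro h
      have h2 := h.pow 2
      rw [zero_pow two_ne_zero] at h2
      refine h2.congr fun n => Real.sq_sqrt ?_
      exact div_nonneg (hsModel.D_nonneg _ _) (by positivity)
    · intro h
      have h2 := h.sqrt
      rw [Real.sqrt_zero] at h2
      exact h2) G

theorem hsStable_pushout {ι : Type} [Finite ι] [Nonempty ι] {H : Type} [Group H] [Finite H]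
    {G : ι → Type} [∀ i, Group (G i)] (φ : ∀ i, H →* G i)
    (hφ : ∀ i, AlmostNormal (φ i).range) (hG : ∀ i, HSStable (G i)) :
    HSStable (Monoid.PushoutI φ) := by
  choose K hK1 hK2 hK3 using fun i => dietzmann (φ i) (hφ i)
  have := Fintype.ofFinite H
  rw [hsStable_iff]
  exact stable_pushout (hsInv H) (fun i => (nonempty_hsTypes (φ i) (K i) (hK3 i)).some)
    (fun i => (hsStable_iff _).1 (hG i))

end Pool.Agent.Lib.MP_098da0_al
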